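import Pool.Agent.H26.PM.Sel

/-!
# A relation of functions of the line and of functions of the point

`six_of`: a relation `R` between the sample, a function of the point and a function of the line,
which is small for all such functions, is small for functions `HA` of two further samples in the
coupling of six samples.
-/

set_option autoImplicit false

namespace Pool.PM26

open Finset Real
open Pool.Agent.H49.Ent Pool.Agent.H32.Dense Pool.STK Pool.KA Pool.KSAT Pool.K2S Pool.PB Pool.S6C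
open Pool.KM7 (P2)

/-- **From functions of the point and of the line to two samples of them.** -/
theorem six_of {Ω GT XT D : Type} [Fintype Ω] {p q : Ω → ℝ} {A : Ω → Prop} {M ε : ℝ}
    (hq : IsLaw q) (hM : 0 ≤ M) (hPA : 0 < Pe p A) (hqA : ∀ ω, 0 < q ω → A ω)
    (hqM : ∀ ω, q ω * Pe p A ≤ M * p ω) (g : Ω → GT) (pt : Ω → XT) (HA : Ω × Ω → D)
    (R : Ω → D → D → Prop)
    (h : ∀ (α : XT → D) (β : GT → D),
      Pe p (fun ω => A ω ∧ R ω (α (pt ω)) (β (g ω))) ≤ ε * Pe p A) :
    Pe (PC q g pt) (fun e => R e.1.1.1 (HA (e.2.1.2, e.2.2.2)) (HA (e.1.1.2, e.1.2.2))) ≤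
      M * ε := by
  classical
  obtain ⟨sL, sP, hs⟩ := six_sel hq g pt (fun o y z => R o (HA z.2) (HA y))
  refine hs.trans ?_
  have h4 : Pe q (fun ω => R ω (HA (sP (pt ω)).2) (HA (sL (g ω)))) * Pe p A ≤
      M * Pe p (fun ω => A ω ∧ R ω (HA (sP (pt ω)).2) (HA (sL (g ω)))) := by
    rw [Pool.JVE.pe_sum q, Pool.JVE.pe_sum p (fun ω => A ω ∧
      R ω (HA (sP (pt ω)).2) (HA (sL (g ω)))), Finset.sum_mul, Finset.mul_sum]
    refine Finset.sum_le_sum fun ω _ => ?_
    by_cases h5 : R ω (HA (sP (pt ω)).2) (HA (sL (g ω)))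
    · rw [if_pos h5]
      by_cases h6 : A ω
      · rw [if_pos ⟨h6, h5⟩]
        exact hqM ω
      · rw [if_neg (fun h => h6 h.1), mul_zero]
        have h7 : q ω = 0 := le_antisymm (not_lt.1 fun h => h6 (hqA ω h)) (hq.nonneg ω)
        rw [h7, zero_mul]
    · rw [if_neg h5, if_neg (fun h => h5 h.2), zero_mul, mul_zero]
  have h6 : Pe q (fun ω => R ω (HA (sP (pt ω)).2) (HA (sL (g ω)))) * Pe p A ≤ M * ε * Pe p A := by
    rw [mul_assoc]
    exact h4.trans (mul_le_mul_of_nonneg_left (h (fun y => HA (sP y).2) (fun s => HA (sL s))) hM)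
  exact le_of_mul_le_mul_right h6 hPA

end Pool.PM26
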