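import Pool.Agent.H26.PM.Rnd
import Pool.Agent.H26.PM.Six
import Pool.Agent.H53.JM.Nat
import Pool.Agent.H1.PLN.Prb

/-!
# Affine labels on rounded points, and natural coordinates

`Afl`: an affine label of the coordinate `c i` on the rounded points, closed at a window.
`nlv`: an affine function of the natural coordinates. `afp_ev`: in a class in which there is no
affine label with a certain precision, an event on which an affine function of the line in the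
natural coordinates is near an affine function of the point which passes through the point,
with this precision, is small.
-/

set_option autoImplicit false

namespace Pool.PM26

open Finset Real MvPolynomial
open Pool.Agent.H49.Ent Pool.Agent.H32.Dense Pool.STK Pool.KA Pool.KSAT Pool.K2S Pool.PB Pool.S6C
open Pool.STAT (PN TriN)
open Pool.M3F (px)
open Pool.GEN (PtT LnT)
open Pool.JPN (ntc)

variable {m J : ℕ}

/-- **An affine label** of the coordinate `c i` on the rounded points, closed at the window `w`. -/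
def Afl (F : Fam m J) (c : ℕ → Fin m) (i w P : ℕ) (A : F.Ω → Prop) : Prop :=
  ∃ (V : Type) (z : PtT F → V) (z' : LnT F → V) (Q : V → PN),
    (∀ v, (Q v).totalDegree ≤ 1 ∧ (Q v).vars ⊆ range (i + 1)) ∧
    (∀ ω, A ω → z (ptr F J ω) = z' (slam F w ω)) ∧
    ∀ ω, A ω → |px c (ptr F J ω) (i + 1) - eval (px c (ptr F J ω)) (Q (z (ptr F J ω)))| ≤
      1 / 2 ^ P

/-- An affine function of the natural time and of the natural coordinates. -/
noncomputable def nlv (F : Fam m J) (c : ℕ → Fin m) {V₀ : Type} (P : V₀ → ℕ → PN)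
    (z₀ : PtT F → V₀) (g : ℕ → ℕ) (w i : ℕ) (q : ℕ → ℝ) (ω : F.Ω) : ℝ :=
  q 0 + q 1 * (2 ^ w * F.t ω - F.T1 w ω) +
    ∑ l ∈ range i, q (l + 2) * (2 ^ g l * ntc F c P z₀ ω l)

/-- The polynomial of an affine function of the natural coordinates. -/
noncomputable def npl (Q : ℕ → PN) (g : ℕ → ℕ) (w T i : ℕ) (κ : ℕ → ℝ) : PN :=
  Q (i + 1) + C ((1 : ℝ) / 2 ^ g i) * (C (κ 0) + C (κ 1) * (C ((2 : ℝ) ^ w) * X 0 - C (T : ℝ)) +
    ∑ l ∈ range i, C (κ (l + 2)) * (C ((2 : ℝ) ^ g l) * (X (l + 1) - Q (l + 1))))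

theorem eval_npl (F : Fam m J) (c : ℕ → Fin m) {V₀ : Type} (P : V₀ → ℕ → PN) (z₀ : PtT F → V₀)
    (g : ℕ → ℕ) (w i : ℕ) (κ : ℕ → ℝ) (ω : F.Ω) :
    px c (ptr F J ω) (i + 1) -
      eval (px c (ptr F J ω)) (npl (P (z₀ (ptr F J ω))) g w (F.T1 w ω) i κ) =
      1 / 2 ^ g i * (2 ^ g i * ntc F c P z₀ ω i - nlv F c P z₀ g w i κ ω) := by
  have hp : (0 : ℝ) < 2 ^ g i := by positivity
  have e0 : px c (ptr F J ω) 0 = F.t ω := rfl
  unfold npl nlv Pool.JPN.ntc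
  simp only [map_add, map_mul, map_sub, map_sum, eval_C, eval_X, e0]
  field_simp
  ring

theorem deg_npl {Q : ℕ → PN} {g : ℕ → ℕ} {i : ℕ} (hQ : ∀ j ≤ i + 1, (Q j).totalDegree ≤ 1)
    (w T : ℕ) (κ : ℕ → ℝ) : (npl Q g w T i κ).totalDegree ≤ 1 := by
  have hC : ∀ (a : ℝ) (p : PN), p.totalDegree ≤ 1 → (C a * p).totalDegree ≤ 1 := by
    intro a p hp
    refine (totalDegree_mul _ _).trans ?_
    rw [totalDegree_C, zero_add]
    exact hp
  have hA : ∀ p q : PN, p.totalDegree ≤ 1 → q.totalDegree ≤ 1 → (p + q).totalDegree ≤ 1 :=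
    fun p q hp hq => (totalDegree_add _ _).trans (max_le hp hq)
  unfold npl
  refine hA _ _ (hQ _ le_rfl) (hC _ _ (hA _ _ (hA _ _ ?_ (hC _ _ ?_)) ?_))
  · rw [totalDegree_C]
    exact Nat.zero_le _
  · refine (totalDegree_sub _ _).trans (max_le (hC _ _ (totalDegree_X _).le) ?_)
    rw [totalDegree_C]
    exact Nat.zero_le _
  · refine totalDegree_finsetSum_le fun l hl => hC _ _ (hC _ _ ?_)
    refine (totalDegree_sub _ _).trans (max_le (totalDegree_X _).le (hQ _ ?_))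
    have := mem_range.1 hl
    omega

theorem vars_npl {Q : ℕ → PN} {g : ℕ → ℕ} {i : ℕ} (hQ : TriN Q) (w T : ℕ) (κ : ℕ → ℝ) :
    (npl Q g w T i κ).vars ⊆ range (i + 1) := by
  classical
  have hC : ∀ (a : ℝ), (C a : PN).vars ⊆ range (i + 1) := by
    intro a
    rw [vars_C]
    exact Finset.empty_subset _
  have hM : ∀ p q : PN, p.vars ⊆ range (i + 1) → q.vars ⊆ range (i + 1) →
      (p * q).vars ⊆ range (i + 1) := fun p q hp hq =>
    (vars_mul p q).trans (Finset.union_subset hp hq)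
  have hA : ∀ p q : PN, p.vars ⊆ range (i + 1) → q.vars ⊆ range (i + 1) →
      (p + q).vars ⊆ range (i + 1) := fun p q hp hq =>
    (vars_add_subset p q).trans (Finset.union_subset hp hq)
  have hS : ∀ p q : PN, p.vars ⊆ range (i + 1) → q.vars ⊆ range (i + 1) →
      (p - q).vars ⊆ range (i + 1) := fun p q hp hq => by
    rw [sub_eq_add_neg, ← neg_one_mul, show (-1 : PN) = C (-1 : ℝ) by simp]
    exact hA _ _ hp (hM _ _ (hC _) hq)
  have hX : ∀ j ≤ i, (X j : PN).vars ⊆ range (i + 1) := by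
    intro j hj
    rw [vars_X]
    intro x hx
    rw [Finset.mem_singleton.1 hx]
    exact mem_range.2 (by omega)
  unfold npl
  refine hA _ _ (hQ _) (hM _ _ (hC _) (hA _ _ (hA _ _ (hC _) (hM _ _ (hC _)
    (hS _ _ (hM _ _ (hC _) (hX 0 (Nat.zero_le _))) (hC _)))) ?_))
  refine (vars_sum_subset _ _).trans ?_
  intro x hx
  obtain ⟨l, hl, hx⟩ := Finset.mem_biUnion.1 hx
  have hl' := mem_range.1 hl
  have h1 : (C (κ (l + 2)) * (C ((2 : ℝ) ^ g l) * (X (l + 1) - Q (l + 1)))).vars ⊆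
      range (i + 1) :=
    hM _ _ (hC _) (hM _ _ (hC _) (hS _ _ (hX _ (by omega))
      ((hQ (l + 1)).trans (Finset.range_subset_range.2 (by omega)))))
  exact h1 hx

/-- The natural time. -/
theorem ntm_bd (F : Fam m J) {w : ℕ} (hw : w ≤ J) (ω : F.Ω) :
    0 ≤ 2 ^ w * F.t ω - F.T1 w ω ∧ 2 ^ w * F.t ω - F.T1 w ω ≤ 1 := by
  have e1 : (2 : ℝ) ^ w * F.t ω = (F.T ω : ℝ) / 2 ^ (J - w) := by
    unfold Fam.t
    rw [show (2 : ℝ) ^ J = 2 ^ w * 2 ^ (J - w) by rw [← pow_add]; congr 1; omega]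
    field_simp
  rw [e1]
  have e2 : ((2 : ℝ) ^ (J - w)) = ((2 ^ (J - w) : ℕ) : ℝ) := by push_cast; rfl
  have e3 : (F.T1 w ω : ℕ) = F.T ω / 2 ^ (J - w) := rfl
  rw [e3, e2]
  have hq : (0 : ℝ) < ((2 ^ (J - w) : ℕ) : ℝ) := by positivity
  have e4 : ((F.T ω / 2 ^ (J - w) : ℕ) : ℝ) ≤ (F.T ω : ℝ) / ((2 ^ (J - w) : ℕ) : ℝ) :=
    Nat.cast_div_le
  have e5 : (F.T ω : ℝ) / ((2 ^ (J - w) : ℕ) : ℝ) < ((F.T ω / 2 ^ (J - w) : ℕ) : ℝ) + 1 := by
    rw [div_lt_iff₀ hq]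
    have := Nat.lt_div_mul_add (a := F.T ω) (b := 2 ^ (J - w)) (by positivity)
    have h7 : (F.T ω : ℝ) < ((F.T ω / 2 ^ (J - w) * 2 ^ (J - w) + 2 ^ (J - w) : ℕ) : ℝ) := by
      exact_mod_cast this
    refine h7.trans_le (le_of_eq ?_)
    push_cast
    ring
  constructor <;> linarith

theorem nlv_sub (F : Fam m J) (c : ℕ → Fin m) {V₀ : Type} (P : V₀ → ℕ → PN)
    (z₀ : PtT F → V₀) (g : ℕ → ℕ) (w i : ℕ) (q q' : ℕ → ℝ) (ω : F.Ω) :
    nlv F c P z₀ g w i q ω - nlv F c P z₀ g w i q' ω =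
      nlv F c P z₀ g w i (fun j => q j - q' j) ω := by
  unfold nlv
  rw [show ∑ l ∈ range i, (q (l + 2) - q' (l + 2)) * (2 ^ g l * ntc F c P z₀ ω l) =
    ∑ l ∈ range i, q (l + 2) * (2 ^ g l * ntc F c P z₀ ω l) -
      ∑ l ∈ range i, q' (l + 2) * (2 ^ g l * ntc F c P z₀ ω l) by
    rw [← Finset.sum_sub_distrib]
    exact Finset.sum_congr rfl fun l _ => by ring]
  ring

theorem nlv_le (F : Fam m J) (c : ℕ → Fin m) {V₀ : Type} {P : V₀ → ℕ → PN}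
    {z₀ : PtT F → V₀} {g : ℕ → ℕ} {w i : ℕ} (hw : w ≤ J) {q : ℕ → ℝ} {ω : F.Ω} {ε : ℝ}
    (hε : 0 ≤ ε) (hq : ∀ j < i + 2, |q j| ≤ ε) (hn : ∀ l < i, |2 ^ g l * ntc F c P z₀ ω l| ≤ 2) :
    |nlv F c P z₀ g w i q ω| ≤ (2 * i + 2) * ε := by
  obtain ⟨ht0, ht1⟩ := ntm_bd F hw ω
  have h1 : |q 1 * (2 ^ w * F.t ω - F.T1 w ω)| ≤ ε := by
    rw [abs_mul, abs_of_nonneg ht0]
    calc |q 1| * (2 ^ w * F.t ω - F.T1 w ω) ≤ ε * 1 :=
          mul_le_mul (hq 1 (by omega)) ht1 ht0 hε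
      _ = ε := mul_one _
  have h2 : |∑ l ∈ range i, q (l + 2) * (2 ^ g l * ntc F c P z₀ ω l)| ≤ i * (ε * 2) := by
    refine (Finset.abs_sum_le_sum_abs _ _).trans ?_
    calc ∑ l ∈ range i, |q (l + 2) * (2 ^ g l * ntc F c P z₀ ω l)| ≤
          ∑ _l ∈ range i, ε * 2 := by
          refine Finset.sum_le_sum fun l hl => ?_
          rw [abs_mul]
          exact mul_le_mul (hq _ (by have := mem_range.1 hl; omega)) (hn l (mem_range.1 hl))
            (abs_nonneg _) hε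
      _ = i * (ε * 2) := by
          rw [Finset.sum_const, Finset.card_range, nsmul_eq_mul]
  unfold nlv
  calc |q 0 + q 1 * (2 ^ w * F.t ω - F.T1 w ω) +
        ∑ l ∈ range i, q (l + 2) * (2 ^ g l * ntc F c P z₀ ω l)| ≤ ε + ε + i * (ε * 2) :=
        (abs_add_le _ _).trans (add_le_add ((abs_add_le _ _).trans
          (add_le_add (hq 0 (by omega)) h1)) h2)
    _ = (2 * i + 2) * ε := by ring

/-- The closing in natural coordinates, with a restriction for the precision. -/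
theorem afp_evB {S : PCl m} {c : ℕ → Fin m} {i : ℕ} {w₀ P1 : ℝ} (hw1 : w₀ ≤ 1) {h₀ : ℝ}
    {Bd : ℕ → ℕ → Prop} (hno : Bas S (fun J F A => ∀ P : ℕ, (P1 + h₀) * J ≤ P → Bd J P →
      ¬ Afl F c i ⌊w₀ * J⌋₊ P A)) :
    ∃ δ : ℝ, 0 < δ ∧ Bas S (fun J F A => ∀ (V₀ : Type) (P : V₀ → ℕ → PN) (z₀ : PtT F → V₀)
      (z₀' : LnT F → V₀) (g : ℕ → ℕ) (q : ℕ) (α : PtT F → ℕ → ℝ) (β : LnT F → ℕ → ℝ)
      (B : F.Ω → Prop), (∀ v, TriN (P v)) → (∀ v, ∀ j ≤ i + 1, (P v j).totalDegree ≤ 1) →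
      Sub B A → (∀ ω, B ω → z₀ (ptr F J ω) = z₀' (slam F ⌊w₀ * J⌋₊ ω)) →
      2 * i + 5 ≤ g i + q → (P1 + h₀) * J + (2 * i + 5 : ℕ) ≤ g i + q →
      Bd J (g i + q - (2 * i + 5)) →
      (∀ ω, B ω → ∀ l < i, |2 ^ g l * ntc F c P z₀ ω l| ≤ 2) →
      (∀ ω, B ω → |2 ^ g i * ntc F c P z₀ ω i -
        nlv F c P z₀ g ⌊w₀ * J⌋₊ i (α (ptr F J ω)) ω| ≤ 1 / 2 ^ q) →
      (∀ ω, B ω → ∀ j < i + 2, |α (ptr F J ω) j - β (slam F ⌊w₀ * J⌋₊ ω) j| ≤ 1 / 2 ^ q) →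
      Pe F.p B ≤ Real.exp (-(δ * J)) * Pe F.p A) := by
  classical
  obtain ⟨τ, hτ, J₁, hT⟩ := hno
  obtain ⟨J₂, hJ₂⟩ := exists_nat_ge (4 / τ)
  refine ⟨τ / 4, by linarith, τ / 2, by linarith, max J₁ J₂, ?_⟩
  intro J hJ F A hA V₀ Q z₀ z₀' g q α β B hQ hQ1 hBA hcl hg8 hnum hbd hne hown hab
  by_contra hcon
  push Not at hcon
  have hJ0 : (0 : ℝ) ≤ J := Nat.cast_nonneg J
  have hJ' : 4 / τ ≤ J := by
    have : (J₂ : ℝ) ≤ J := by exact_mod_cast (le_max_right _ _).trans hJ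
    exact hJ₂.trans this
  have hτJ : 1 ≤ τ / 4 * J := by
    rw [div_le_iff₀ hτ] at hJ'
    linarith
  obtain ⟨w, hw⟩ : ∃ w, w = ⌊w₀ * (J : ℝ)⌋₊ := ⟨_, rfl⟩
  have hwJ : w ≤ J := by
    rw [hw]
    refine Nat.floor_le_of_le ?_
    nlinarith
  rw [← hw] at hcl hown hab
  have h2q : (0 : ℝ) < 2 ^ q := by positivity
  obtain ⟨s, hs⟩ : ∃ s : ℕ, s = 2 * (i + 2) := ⟨_, rfl⟩
  have hs0 : (0 : ℝ) < s := by
    rw [hs]
    positivity
  -- rounding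
  obtain ⟨j, hj, hB'⟩ := rnd_ev F.isLaw.nonneg (n := i + 2) (by omega) B
    (fun ω k => 2 ^ q / s * α (ptr F J ω) k) (fun ω k => 2 ^ q / s * β (slam F w ω) k)
    (fun ω hω k => by
      have h1 := hab ω hω k k.2
      rw [← mul_sub, abs_mul, abs_of_pos (by positivity : (0 : ℝ) < 2 ^ q / s), ← hs]
      calc (2 : ℝ) ^ q / s * |α (ptr F J ω) k - β (slam F w ω) k| ≤ 2 ^ q / s * (1 / 2 ^ q) :=
            mul_le_mul_of_nonneg_left h1 (by positivity)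
        _ = 1 / s := by field_simp)
  rw [← hs] at hj hB'
  obtain ⟨B', hB'd⟩ : ∃ B' : F.Ω → Prop, B' = fun ω => B ω ∧ ∀ k : Fin (i + 2),
      rsh s j (2 ^ q / s * α (ptr F J ω) k) =
        rsh s j (2 ^ q / s * β (slam F w ω) k) := ⟨_, rfl⟩
  have hB'' : Pe F.p B ≤ 2 * Pe F.p B' := by
    rw [hB'd]
    exact hB'
  have hsub : Sub B' A := fun ω hω => by
    rw [hB'd] at hω
    exact hBA ω hω.1
  have hmass : Real.exp (-(τ / 2 * J)) * Pe F.p A ≤ Pe F.p B' := by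
    have h1 : Real.exp (-(τ / 2 * J)) ≤ Real.exp (-(τ / 4 * J)) / 2 := by
      have h2 : Real.exp (-(τ / 2 * J)) = Real.exp (-(τ / 4 * J)) * Real.exp (-(τ / 4 * J)) := by
        rw [← Real.exp_add]
        congr 1
        ring
      have h3 : Real.exp (-(τ / 4 * J)) ≤ 1 / 2 := by
        have h4 : Real.exp (-(τ / 4 * J)) ≤ Real.exp (-1) := Real.exp_le_exp.2 (by linarith)
        have h5 := Real.exp_neg_one_lt_d9
        linarith
      rw [h2]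
      have h6 := Real.exp_pos (-(τ / 4 * J))
      nlinarith
    have h0 := Pool.PLN.pe_nonneg F.isLaw.nonneg A
    have h2 : Real.exp (-(τ / 2 * J)) * Pe F.p A ≤ Real.exp (-(τ / 4 * J)) / 2 * Pe F.p A :=
      mul_le_mul_of_nonneg_right h1 h0
    linarith
  have hSt : S.St (τ / 2 + τ / 2) J F B' := S.res (by linarith) hA hsub hmass
  rw [add_halves] at hSt
  refine hT J ((le_max_left _ _).trans hJ) F B' hSt (g i + q - (2 * i + 5)) ?_ hbd ?_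
  · rw [Nat.cast_sub hg8]
    push_cast at hnum ⊢
    linarith
  · rw [← hw]
    refine ⟨(V₀ × ℕ) × (Fin (i + 2) → ℤ),
      fun y => ((z₀ y, y.2.1 / 2 ^ (J - w)), fun k => rsh s j (2 ^ q / s * α y k)),
      fun y => ((z₀' y, y.2.2), fun k => rsh s j (2 ^ q / s * β y k)),
      fun v => npl (Q v.1.1) g w v.1.2 i
        (fun k => if hk : k < i + 2 then s / 2 ^ q * (v.2 ⟨k, hk⟩ : ℝ) else 0),
      fun v => ⟨deg_npl (hQ1 _) _ _ _, vars_npl (hQ _) _ _ _⟩, fun ω hω => ?_,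
      fun ω hω => ?_⟩
    · rw [hB'd] at hω
      refine Prod.ext (Prod.ext (hcl ω hω.1) rfl) ?_
      funext k
      exact hω.2 k
    · rw [hB'd] at hω
      have hω := hω.1
      obtain ⟨κ, hκ⟩ : ∃ κ : ℕ → ℝ, κ = fun k => if hk : k < i + 2 then
        s / 2 ^ q * (rsh s j (2 ^ q / s * α (ptr F J ω) k) : ℝ) else 0 := ⟨_, rfl⟩
      have e1 := eval_npl F c Q z₀ g w i κ ω
      have e2 : px c (ptr F J ω) (i + 1) - eval (px c (ptr F J ω))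
          ((fun v : (V₀ × ℕ) × (Fin (i + 2) → ℤ) => npl (Q v.1.1) g w v.1.2 i
            (fun k => if hk : k < i + 2 then s / 2 ^ q * (v.2 ⟨k, hk⟩ : ℝ) else 0))
            ((z₀ (ptr F J ω), (ptr F J ω).2.1 / 2 ^ (J - w)),
              fun k => rsh s j (2 ^ q / s * α (ptr F J ω) k))) =
          px c (ptr F J ω) (i + 1) - eval (px c (ptr F J ω))
            (npl (Q (z₀ (ptr F J ω))) g w (F.T1 w ω) i κ) := by
        rw [hκ]
        rfl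
      rw [e2, e1, abs_mul, abs_of_pos (by positivity : (0 : ℝ) < 1 / 2 ^ g i)]
      have hd : ∀ k < i + 2, |α (ptr F J ω) k - κ k| ≤ s / 2 ^ q := by
        intro k hk
        have h1 := rsh_near hj (2 ^ q / s * α (ptr F J ω) k)
        have h0 : κ k = s / 2 ^ q * (rsh s j (2 ^ q / s * α (ptr F J ω) k) : ℝ) := by
          rw [hκ]
          exact dif_pos hk
        have h2 : α (ptr F J ω) k - s / 2 ^ q *
            (rsh s j (2 ^ q / s * α (ptr F J ω) k) : ℝ) =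
            s / 2 ^ q * -((rsh s j (2 ^ q / s * α (ptr F J ω) k) : ℝ) -
              2 ^ q / s * α (ptr F J ω) k) := by
          field_simp
          ring
        rw [h0, h2, abs_mul, abs_neg, abs_of_pos (by positivity : (0 : ℝ) < s / 2 ^ q)]
        calc (s : ℝ) / 2 ^ q * |(rsh s j (2 ^ q / s * α (ptr F J ω) k) : ℝ) -
              2 ^ q / s * α (ptr F J ω) k| ≤ s / 2 ^ q * 1 :=
              mul_le_mul_of_nonneg_left h1 (by positivity)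
          _ = _ := mul_one _
      have h3 := nlv_le F c (P := Q) (z₀ := z₀) (g := g) hwJ (ω := ω)
        (by positivity : (0 : ℝ) ≤ s / 2 ^ q) hd (hne ω hω)
      rw [← nlv_sub] at h3
      have ho := hown ω hω
      obtain ⟨x, hx⟩ : ∃ x, x = (1 : ℝ) / 2 ^ q := ⟨_, rfl⟩
      have hx0 : 0 < x := by
        rw [hx]
        positivity
      have h4 : (s : ℝ) / 2 ^ q = s * x := by
        rw [hx]
        ring
      rw [← hx] at ho
      rw [h4] at h3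
      have h7 : (1 : ℝ) + (2 * i + 2) * s ≤ 2 ^ (2 * i + 5) := by
        have h8 : ((i + 2 : ℕ) : ℝ) ≤ 2 ^ (i + 1) := by
          have : i + 2 ≤ 2 ^ (i + 1) := Nat.lt_two_pow_self (n := i + 1)
          exact_mod_cast this
        have h9 : (2 : ℝ) ^ (2 * i + 5) = 8 * (2 ^ (i + 1) * 2 ^ (i + 1)) := by
          rw [← pow_add, show (8 : ℝ) = 2 ^ 3 by norm_num, ← pow_add]
          congr 1
          ring
        rw [h9, hs]
        push_cast at h8 ⊢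
        have h10 : ((i : ℝ) + 2) * (i + 2) ≤ 2 ^ (i + 1) * 2 ^ (i + 1) :=
          mul_le_mul h8 h8 (by positivity) (by positivity)
        nlinarith
      have h5 : |2 ^ g i * ntc F c Q z₀ ω i - nlv F c Q z₀ g w i κ ω| ≤
          2 ^ (2 * i + 5) * x := by
        have h6 : |2 ^ g i * ntc F c Q z₀ ω i - nlv F c Q z₀ g w i κ ω| ≤
            x + (2 * i + 2) * (s * x) := by
          rw [abs_le] at ho h3 ⊢
          constructor <;> linarith [ho.1, ho.2, h3.1, h3.2]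
        refine h6.trans ?_
        calc x + (2 * i + 2) * (s * x) = (1 + (2 * i + 2) * s) * x := by ring
          _ ≤ 2 ^ (2 * i + 5) * x := mul_le_mul_of_nonneg_right h7 hx0.le
      have h6 : (1 : ℝ) / 2 ^ (g i + q - (2 * i + 5)) = 1 / 2 ^ g i * (2 ^ (2 * i + 5) * x) := by
        rw [hx, show (2 : ℝ) ^ (g i + q - (2 * i + 5)) = 2 ^ g i * 2 ^ q / 2 ^ (2 * i + 5) by
          rw [eq_div_iff (by positivity), ← pow_add, ← pow_add]
          congr 1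
          omega]
        field_simp
      rw [h6]
      exact mul_le_mul_of_nonneg_left h5 (by positivity)

/-- **The closing in natural coordinates.** -/
theorem afp_ev {S : PCl m} {c : ℕ → Fin m} {i : ℕ} {w₀ P1 : ℝ} (hw1 : w₀ ≤ 1) {h₀ : ℝ}
    (hno : Bas S (fun J F A => ∀ P : ℕ, (P1 + h₀) * J ≤ P → ¬ Afl F c i ⌊w₀ * J⌋₊ P A)) :
    ∃ δ : ℝ, 0 < δ ∧ Bas S (fun J F A => ∀ (V₀ : Type) (P : V₀ → ℕ → PN) (z₀ : PtT F → V₀)
      (z₀' : LnT F → V₀) (g : ℕ → ℕ) (q : ℕ) (α : PtT F → ℕ → ℝ) (β : LnT F → ℕ → ℝ)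
      (B : F.Ω → Prop), (∀ v, TriN (P v)) → (∀ v, ∀ j ≤ i + 1, (P v j).totalDegree ≤ 1) →
      Sub B A → (∀ ω, B ω → z₀ (ptr F J ω) = z₀' (slam F ⌊w₀ * J⌋₊ ω)) →
      2 * i + 5 ≤ g i + q → (P1 + h₀) * J + (2 * i + 5 : ℕ) ≤ g i + q →
      (∀ ω, B ω → ∀ l < i, |2 ^ g l * ntc F c P z₀ ω l| ≤ 2) →
      (∀ ω, B ω → |2 ^ g i * ntc F c P z₀ ω i -
        nlv F c P z₀ g ⌊w₀ * J⌋₊ i (α (ptr F J ω)) ω| ≤ 1 / 2 ^ q) →
      (∀ ω, B ω → ∀ j < i + 2, |α (ptr F J ω) j - β (slam F ⌊w₀ * J⌋₊ ω) j| ≤ 1 / 2 ^ q) →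
      Pe F.p B ≤ Real.exp (-(δ * J)) * Pe F.p A) := by
  obtain ⟨δ, hδ, τ, hτ, J₁, h⟩ := afp_evB (P1 := P1) (Bd := fun _ _ => True) hw1
    (Bas.mono 0 hno fun J _ F A h P hP _ => h P hP)
  exact ⟨δ, hδ, τ, hτ, J₁, fun J hJ F A hA V₀ P z₀ z₀' g q α β B h1 h2 h3 h4 h5 h6 h7 h8 h9 =>
    h J hJ F A hA V₀ P z₀ z₀' g q α β B h1 h2 h3 h4 h5 h6 trivial h7 h8 h9⟩

/-- **The closing in natural coordinates**, for precisions at most `J`. -/
theorem afp_evJ {S : PCl m} {c : ℕ → Fin m} {i : ℕ} {w₀ P1 : ℝ} (hw1 : w₀ ≤ 1) {h₀ : ℝ}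
    (hno : Bas S (fun J F A => ∀ P : ℕ, (P1 + h₀) * J ≤ P → P ≤ J →
      ¬ Afl F c i ⌊w₀ * J⌋₊ P A)) :
    ∃ δ : ℝ, 0 < δ ∧ Bas S (fun J F A => ∀ (V₀ : Type) (P : V₀ → ℕ → PN) (z₀ : PtT F → V₀)
      (z₀' : LnT F → V₀) (g : ℕ → ℕ) (q : ℕ) (α : PtT F → ℕ → ℝ) (β : LnT F → ℕ → ℝ)
      (B : F.Ω → Prop), (∀ v, TriN (P v)) → (∀ v, ∀ j ≤ i + 1, (P v j).totalDegree ≤ 1) →
      Sub B A → (∀ ω, B ω → z₀ (ptr F J ω) = z₀' (slam F ⌊w₀ * J⌋₊ ω)) →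
      2 * i + 5 ≤ g i + q → (P1 + h₀) * J + (2 * i + 5 : ℕ) ≤ g i + q → g i + q ≤ J →
      (∀ ω, B ω → ∀ l < i, |2 ^ g l * ntc F c P z₀ ω l| ≤ 2) →
      (∀ ω, B ω → |2 ^ g i * ntc F c P z₀ ω i -
        nlv F c P z₀ g ⌊w₀ * J⌋₊ i (α (ptr F J ω)) ω| ≤ 1 / 2 ^ q) →
      (∀ ω, B ω → ∀ j < i + 2, |α (ptr F J ω) j - β (slam F ⌊w₀ * J⌋₊ ω) j| ≤ 1 / 2 ^ q) →
      Pe F.p B ≤ Real.exp (-(δ * J)) * Pe F.p A) := by
  obtain ⟨δ, hδ, τ, hτ, J₁, h⟩ := afp_evB (P1 := P1) (Bd := fun J P => P ≤ J) hw1 hno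
  exact ⟨δ, hδ, τ, hτ, J₁, fun J hJ F A hA V₀ P z₀ z₀' g q α β B h1 h2 h3 h4 h5 h6 h6' h7 h8 h9 =>
    h J hJ F A hA V₀ P z₀ z₀' g q α β B h1 h2 h3 h4 h5 h6 (by omega) h7 h8 h9⟩

end Pool.PM26
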