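import Pool.Agent.H58.AFF.Hyp

/-!
# The hyperplanes of two pairs of leaves at one point

`ipt`: the points between two samples are on the leaves of both. `six_close`: the leaves `o, a, b`
and `o, a', b'` at the same point; small determinants: the hyperplanes of `a, b` and of `a', b'` are
close.
-/

set_option autoImplicit false

namespace Pool.AFF

/-- The point between two samples at the time `s`. -/
noncomputable def ipt (s₁ s₂ x₁ x₂ s : ℝ) : ℝ := x₁ + (s - s₁) / (s₂ - s₁) * (x₂ - x₁)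

theorem ipt_self {s₁ s₂ s : ℝ} (h : s₁ ≠ s₂) : ipt s₁ s₂ s₁ s₂ s = s := by
  unfold ipt
  have : s₂ - s₁ ≠ 0 := sub_ne_zero.2 h.symm
  field_simp
  ring

/-- The points between two samples are on the leaves of both. -/
theorem ipt_leaf {p : Fin 4 → ℝ} {s₁ s₂ y₁ y₂ z₁ z₂ v₁ v₂ s ε H : ℝ} (hH : 0 < H)
    (hs : 1 / H ≤ |s₁ - s₂|) (hs1 : |s - s₁| ≤ 1) (h1 : |v₁ - af3 p s₁ y₁ z₁| ≤ ε)
    (h2 : |v₂ - af3 p s₂ y₂ z₂| ≤ ε) (hH1 : 1 ≤ H) :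
    |ipt s₁ s₂ v₁ v₂ s - af3 p s (ipt s₁ s₂ y₁ y₂ s) (ipt s₁ s₂ z₁ z₂ s)| ≤ 3 * H * ε := by
  have hε : 0 ≤ ε := (abs_nonneg _).trans h1
  have h0 : 0 < |s₁ - s₂| := lt_of_lt_of_le (by positivity) hs
  have hne : s₂ - s₁ ≠ 0 := by
    intro h
    rw [← neg_sub, h, neg_zero, abs_zero] at h0
    exact lt_irrefl _ h0
  obtain ⟨l, hl⟩ : ∃ l, l = (s - s₁) / (s₂ - s₁) := ⟨_, rfl⟩
  have hl1 : |l| ≤ H := by
    rw [hl, abs_div, abs_sub_comm s₂ s₁, div_le_iff₀ h0]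
    have h3 : 1 ≤ H * |s₁ - s₂| := by
      rw [div_le_iff₀ hH] at hs
      linarith
    linarith
  have hls : s - s₁ = l * (s₂ - s₁) := by
    rw [hl]
    field_simp
  have e1 : ipt s₁ s₂ v₁ v₂ s - af3 p s (ipt s₁ s₂ y₁ y₂ s) (ipt s₁ s₂ z₁ z₂ s) =
      (v₁ - af3 p s₁ y₁ z₁) + l * ((v₂ - af3 p s₂ y₂ z₂) - (v₁ - af3 p s₁ y₁ z₁)) := by
    unfold ipt af3
    rw [← hl]
    linear_combination (-(p 1)) * hls
  rw [e1]
  have h3 : |(v₂ - af3 p s₂ y₂ z₂) - (v₁ - af3 p s₁ y₁ z₁)| ≤ 2 * ε :=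
    (abs_sub _ _).trans (by linarith)
  calc |(v₁ - af3 p s₁ y₁ z₁) + l * ((v₂ - af3 p s₂ y₂ z₂) - (v₁ - af3 p s₁ y₁ z₁))| ≤
        ε + H * (2 * ε) := by
        refine (abs_add_le _ _).trans (add_le_add h1 ?_)
        rw [abs_mul]
        exact mul_le_mul hl1 h3 (abs_nonneg _) hH.le
    _ ≤ 3 * H * ε := by nlinarith

theorem ipt_size {s₁ s₂ x₁ x₂ s H : ℝ} (hH : 0 < H) (hs : 1 / H ≤ |s₁ - s₂|)
    (hs1 : |s - s₁| ≤ 1) (h1 : |x₁| ≤ 1) (h2 : |x₂| ≤ 1) (hH1 : 1 ≤ H) :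
    |ipt s₁ s₂ x₁ x₂ s| ≤ 3 * H := by
  have h0 : 0 < |s₁ - s₂| := lt_of_lt_of_le (by positivity) hs
  have hl1 : |(s - s₁) / (s₂ - s₁)| ≤ H := by
    rw [abs_div, abs_sub_comm s₂ s₁, div_le_iff₀ h0]
    have h3 : 1 ≤ H * |s₁ - s₂| := by
      rw [div_le_iff₀ hH] at hs
      linarith
    linarith
  unfold ipt
  have h3 : |x₂ - x₁| ≤ 2 := (abs_sub _ _).trans (by linarith)
  calc |x₁ + (s - s₁) / (s₂ - s₁) * (x₂ - x₁)| ≤ 1 + H * 2 := by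
        refine (abs_add_le _ _).trans (add_le_add h1 ?_)
        rw [abs_mul]
        exact mul_le_mul hl1 h3 (abs_nonneg _) hH.le
    _ ≤ 3 * H := by linarith

/-- A natural point: time, `y`, `z`, `v`, height. -/
structure NPt where
  s : ℝ
  y : ℝ
  z : ℝ
  v : ℝ
  N : ℝ

/-- The point is in the natural box. -/
def NPt.Bd (x : NPt) : Prop := 0 ≤ x.s ∧ x.s ≤ 1 ∧ |x.y| ≤ 1 ∧ |x.z| ≤ 1 ∧ |x.v| ≤ 1

/-- The point is on the leaf. -/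
def NPt.On (x : NPt) (k : Fin 2 → Fin 4 → ℝ) (ε : ℝ) : Prop :=
  |x.v - af3 (k 0) x.s x.y x.z| ≤ ε ∧ |x.N - af3 (k 1) x.s x.y x.z| ≤ ε

/-- The hyperplane of two leaves. -/
noncomputable def hy2 (k k' : Fin 2 → Fin 4 → ℝ) : Fin 5 → ℝ := hyp (k 0) (k 1) (k' 0) (k' 1)

/-- The determinant of three leaves. -/
def dt3 (ka kb kc : Fin 2 → Fin 4 → ℝ) (j : Fin 4) : ℝ :=
  dtl (ka 0) (ka 1) (kb 0) (kb 1) (kc 0) (kc 1) j

/-- **The two hyperplanes are close.** -/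
theorem six_close {x xa xa' : NPt} {ko ka kb ka' kb' : Fin 2 → Fin 4 → ℝ} {H ε τ : ℝ}
    (hH : 1 ≤ H) (bx : x.Bd) (bxa : xa.Bd) (bxa' : xa'.Bd)
    (ta : 1 / H ≤ |x.s - xa.s|) (ta' : 1 / H ≤ |x.s - xa'.s|)
    (sa : ∀ j i, |ka j i| ≤ H) (sb : ∀ j i, |kb j i| ≤ H) (sa' : ∀ j i, |ka' j i| ≤ H)
    (sb' : ∀ j i, |kb' j i| ≤ H)
    (gp : 1 / H ≤ |kb 0 3 - ka 0 3|) (gp' : 1 / H ≤ |kb' 0 3 - ka' 0 3|)
    (d1 : |dt3 ka kb ko 2| ≤ τ) (d2 : |dt3 ka kb ko 3| ≤ τ) (d3 : |dt3 ka kb ka' 2| ≤ τ)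
    (d4 : |dt3 ka kb ka' 3| ≤ τ) (d5 : |dt3 ka kb kb' 3| ≤ τ)
    (oo : x.On ko ε) (oa : x.On ka ε) (oa' : x.On ka' ε) (ao : xa.On ko ε) (aa : xa.On ka ε)
    (ao' : xa'.On ko ε) (aa' : xa'.On ka' ε) :
    (∀ i, |hy2 ka' kb' i - hy2 ka kb i| ≤ 2592 * H ^ 5 * (ε + τ)) ∧
      |x.N - af4 (hy2 ka' kb') x.s x.y x.z x.v| ≤ 3 * H ^ 2 * ε ∧
      ∀ i, |hy2 ka' kb' i| ≤ 3 * H ^ 3 := by
  have hH0 : 0 < H := by linarith
  have hε : 0 ≤ ε := (abs_nonneg _).trans oo.1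
  have hτ : 0 ≤ τ := (abs_nonneg _).trans d1
  have hκ : 0 < 1 / H := by positivity
  have hκ1 : 1 / H ≤ 1 := by
    rw [div_le_one hH0]
    exact hH
  obtain ⟨x0, x1, x2, x3, x4⟩ := bx
  obtain ⟨a0, a1, a2, a3, a4⟩ := bxa
  obtain ⟨b0, b1, b2, b3, b4⟩ := bxa'
  -- the values of the two hyperplanes
  have key : ∀ s y₁ z₁ v₁ : ℝ, 0 ≤ s → s ≤ 1 → |y₁| ≤ 1 → |z₁| ≤ 1 → |v₁| ≤ 1 →
      |af4 (hy2 ka' kb') s y₁ z₁ v₁ - af4 (hy2 ka kb) s y₁ z₁ v₁| ≤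
        1296 * H ^ 5 * (ε + τ) := by
    intro s y₁ z₁ v₁ hs0 hs1 hy₁ hz₁ hv₁
    have hsx : |s - x.s| ≤ 1 := by
      rw [abs_le]
      constructor <;> linarith
    have sz : ∀ {u₁ u₂ t : ℝ}, 1 / H ≤ |x.s - t| → |u₁| ≤ 1 → |u₂| ≤ 1 →
        |ipt x.s t u₁ u₂ s| ≤ 3 * H := fun ht h1 h2 => ipt_size hH0 ht hsx h1 h2 hH
    have yl := sz ta x2 a2
    have zl := sz ta x3 a3
    have yl' := sz ta' x2 b2
    have zl' := sz ta' x3 b3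
    have vl' := sz ta' x4 b4
    -- the distance of two points of size `3 H` is at most `6 H`
    have h := hyp_close (pa := ka 0) (qa := ka 1) (pb := kb 0) (qb := kb 1) (pa' := ka' 0)
      (qa' := ka' 1) (pb' := kb' 0) (qb' := kb' 1) (po := ko 0) (qo := ko 1) (κ := 1 / H)
      (τ := τ) (B := 6 * H) (ε := 3 * H * ε) (s := s)
      (y := ipt x.s xa.s x.y xa.y s) (z := ipt x.s xa.s x.z xa.z s)
      (v := ipt x.s xa.s x.v xa.v s) (N := ipt x.s xa.s x.N xa.N s)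
      (y' := ipt x.s xa'.s x.y xa'.y s) (z' := ipt x.s xa'.s x.z xa'.z s)
      (v' := ipt x.s xa'.s x.v xa'.v s) (N' := ipt x.s xa'.s x.N xa'.N s)
      (y₁ := y₁) (z₁ := z₁) (v₁ := v₁) hκ hκ1 (by linarith)
      ((sa 1 3).trans (by linarith)) ((sb 1 3).trans (by linarith))
      ((sa' 1 3).trans (by linarith)) ((sb' 1 3).trans (by linarith))
      ((sa' 0 2).trans (by linarith)) ((sa' 0 3).trans (by linarith)) gp gp' d1 d2 d3 d4 d5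
      (ipt_leaf hH0 ta hsx oa.1 aa.1 hH) (ipt_leaf hH0 ta hsx oa.2 aa.2 hH)
      (ipt_leaf hH0 ta hsx oo.1 ao.1 hH) (ipt_leaf hH0 ta hsx oo.2 ao.2 hH)
      (ipt_leaf hH0 ta' hsx oo.1 ao'.1 hH) (ipt_leaf hH0 ta' hsx oo.2 ao'.2 hH)
      (ipt_leaf hH0 ta' hsx oa'.1 aa'.1 hH) (ipt_leaf hH0 ta' hsx oa'.2 aa'.2 hH)
      ((abs_sub _ _).trans (by linarith)) ((abs_sub _ _).trans (by linarith))
      ((abs_sub _ _).trans (by linarith)) ((abs_sub _ _).trans (by linarith))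
      ((abs_sub _ _).trans (by linarith))
    refine h.trans ?_
    have e1 : 12 * (6 * H) ^ 2 * (3 * H * ε + τ) / (1 / H) ^ 2 =
        432 * H ^ 4 * (3 * H * ε + τ) := by
      field_simp
      ring
    rw [e1]
    have e2 : τ ≤ 3 * H * τ := by nlinarith
    calc 432 * H ^ 4 * (3 * H * ε + τ) ≤ 432 * H ^ 4 * (3 * H * ε + 3 * H * τ) :=
          mul_le_mul_of_nonneg_left (by linarith) (by positivity)
      _ = 1296 * H ^ 5 * (ε + τ) := by ring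
  have hν : |hnu (ka' 0) (ka' 1) (kb' 0) (kb' 1)| ≤ 2 * H ^ 2 := by
    refine (hnu_le hκ gp' (sa' 1 3) (sb' 1 3)).trans (le_of_eq ?_)
    field_simp
  refine ⟨?_, ?_, ?_⟩
  · have k0 := key 0 0 0 0 le_rfl zero_le_one (by simp) (by simp) (by simp)
    have k1 := key 1 0 0 0 zero_le_one le_rfl (by simp) (by simp) (by simp)
    have k2 := key 0 1 0 0 le_rfl zero_le_one (by simp) (by simp) (by simp)
    have k3 := key 0 0 1 0 le_rfl zero_le_one (by simp) (by simp) (by simp)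
    have k4 := key 0 0 0 1 le_rfl zero_le_one (by simp) (by simp) (by simp)
    unfold af4 at k0 k1 k2 k3 k4
    have e0 : 0 ≤ H ^ 5 * (ε + τ) := by positivity
    rw [abs_le] at k0 k1 k2 k3 k4
    have c0 : |hy2 ka' kb' 0 - hy2 ka kb 0| ≤ 2592 * H ^ 5 * (ε + τ) := by
      rw [abs_le]
      constructor <;> linarith [k0.1, k0.2]
    have c1 : |hy2 ka' kb' 1 - hy2 ka kb 1| ≤ 2592 * H ^ 5 * (ε + τ) := by
      rw [abs_le]
      constructor <;> linarith [k0.1, k0.2, k1.1, k1.2]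
    have c2 : |hy2 ka' kb' 2 - hy2 ka kb 2| ≤ 2592 * H ^ 5 * (ε + τ) := by
      rw [abs_le]
      constructor <;> linarith [k0.1, k0.2, k2.1, k2.2]
    have c3 : |hy2 ka' kb' 3 - hy2 ka kb 3| ≤ 2592 * H ^ 5 * (ε + τ) := by
      rw [abs_le]
      constructor <;> linarith [k0.1, k0.2, k3.1, k3.2]
    have c4 : |hy2 ka' kb' 4 - hy2 ka kb 4| ≤ 2592 * H ^ 5 * (ε + τ) := by
      rw [abs_le]
      constructor <;> linarith [k0.1, k0.2, k4.1, k4.2]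
    intro i
    fin_cases i
    exacts [c0, c1, c2, c3, c4]
  · have e1 : x.N - af4 (hy2 ka' kb') x.s x.y x.z x.v = (x.N - af3 (ka' 1) x.s x.y x.z) -
        hnu (ka' 0) (ka' 1) (kb' 0) (kb' 1) * (x.v - af3 (ka' 0) x.s x.y x.z) := by
      unfold hy2
      rw [af4_hyp]
      ring
    rw [e1]
    have e2 : |hnu (ka' 0) (ka' 1) (kb' 0) (kb' 1) * (x.v - af3 (ka' 0) x.s x.y x.z)| ≤
        2 * H ^ 2 * ε := by
      rw [abs_mul]
      exact mul_le_mul hν oa'.1 (abs_nonneg _) (by positivity)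
    have e3 : ε ≤ H ^ 2 * ε := by
      have : 1 ≤ H ^ 2 := one_le_pow₀ hH
      nlinarith
    refine (abs_sub _ _).trans ?_
    have := oa'.2
    linarith
  · have hc : ∀ j : Fin 4, |ka' 1 j - hnu (ka' 0) (ka' 1) (kb' 0) (kb' 1) * ka' 0 j| ≤
        3 * H ^ 3 := by
      intro j
      refine (abs_sub _ _).trans ?_
      rw [abs_mul]
      have h1 : |hnu (ka' 0) (ka' 1) (kb' 0) (kb' 1)| * |ka' 0 j| ≤ 2 * H ^ 2 * H :=
        mul_le_mul hν (sa' 0 j) (abs_nonneg _) (by positivity)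
      have h2 := sa' 1 j
      have h3 : H ≤ H ^ 3 := le_self_pow₀ hH (by norm_num)
      nlinarith
    have hn : |hnu (ka' 0) (ka' 1) (kb' 0) (kb' 1)| ≤ 3 * H ^ 3 := by
      have h3 : H ^ 2 ≤ H ^ 3 := pow_le_pow_right₀ hH (by norm_num)
      nlinarith [sq_nonneg H]
    intro i
    fin_cases i
    exacts [hc 0, hc 1, hc 2, hc 3, hn]

end Pool.AFF
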