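import Pool.Agent.H22.M.Out
import Pool.Agent.H26.PM.Afp
import Pool.Agent.H26.PM.Hp
import Pool.Agent.H26.PLN.Cor

/-!
# Small determinants are rare

`hypS`: in a class without affine labels of the height above the threshold `Pa`, five small
determinants are rare.
-/

set_option autoImplicit false

namespace Pool.PM

open Finset Real MvPolynomial
open Pool.Agent.H49.Ent Pool.Agent.H32.Dense Pool.STK Pool.KA Pool.KSAT Pool.K2S Pool.PB
  Pool.STAT Pool.GEN Pool.M3F Pool.KM7 Pool.S6C Pool.JPN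
open Pool.MKC (C8 smp PC spp Spp PC_isLaw)
open Pool.AFF (af3 af4 hy2 dt3 NPt six_close)
open Pool.PM26 (Afl nlv afp_evJ six_of ntm_bd)

variable {m J : ℕ}

/-- Coefficients of an affine function. -/
def up5 (p : Fin 5 → ℝ) (j : ℕ) : ℝ := if h : j < 5 then p ⟨j, h⟩ else 0

theorem nlv_up5 (F : Fam m J) (c : ℕ → Fin m) {V₀ : Type} (P : V₀ → ℕ → PN) (z₀ : PtT F → V₀)
    (g : ℕ → ℕ) (w : ℕ) (p : Fin 5 → ℝ) (ω : F.Ω) :
    nlv F c P z₀ g w 3 (up5 p) ω =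
      af4 p (nt F w ω) (nx F c P z₀ g ω 0) (nx F c P z₀ g ω 1) (nx F c P z₀ g ω 2) := by
  unfold Pool.PM26.nlv af4
  rw [Finset.sum_range_succ, Finset.sum_range_succ, Finset.sum_range_succ, Finset.sum_range_zero]
  have e0 : up5 p 0 = p 0 := rfl
  have e1 : up5 p 1 = p 1 := rfl
  have e2 : up5 p (0 + 2) = p 2 := rfl
  have e3 : up5 p (1 + 2) = p 3 := rfl
  have e4 : up5 p (2 + 2) = p 4 := rfl
  rw [e0, e1, e2, e3, e4]
  unfold nt nx
  ring

/-- The natural point of a sample. -/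
noncomputable def npt {F : Fam m J} {K n₀ : ℕ} (D : PDat F K n₀) (c : ℕ → Fin m) (ω : F.Ω) : NPt :=
  ⟨nt F D.w₀ ω, nx F c D.P D.z₀ D.g ω 0, nx F c D.P D.z₀ D.g ω 1, nx F c D.P D.z₀ D.g ω 2,
    nx F c D.P D.z₀ D.g ω 3⟩

theorem npt_ptr {F : Fam m J} {K n₀ : ℕ} (D : PDat F K n₀) (c : ℕ → Fin m) {ω ω' : F.Ω}
    (h : ptr F J ω = ptr F J ω') : npt D c ω = npt D c ω' := by
  have h1 : F.T ω = F.T ω' := by
    have := congrArg (fun y => y.2.1) h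
    exact this
  have h2 : nt F D.w₀ ω = nt F D.w₀ ω' := by
    unfold nt
    have e1 : F.t ω = F.t ω' := by
      unfold Fam.t
      rw [h1]
    have e2 : F.T1 D.w₀ ω = F.T1 D.w₀ ω' := by
      show F.T ω / 2 ^ (J - D.w₀) = F.T ω' / 2 ^ (J - D.w₀)
      rw [h1]
    rw [e1, e2]
  have h3 : ∀ i, nx F c D.P D.z₀ D.g ω i = nx F c D.P D.z₀ D.g ω' i := by
    intro i
    unfold nx Pool.JPN.ntc
    rw [h]
  unfold npt
  rw [h2, h3, h3, h3, h3]

/-- The hyperplane of two samples. -/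
noncomputable def HA2 {F : Fam m J} {K n₀ : ℕ} (D : PDat F K n₀) (x : F.Ω × F.Ω) : Fin 5 → ℝ :=
  hy2 (D.lf (D.z₁ (ptr F J x.1)) (D.z₀ (ptr F J x.1)))
    (D.lf (D.z₁ (ptr F J x.2)) (D.z₀ (ptr F J x.1)))

/-- A good pair. -/
def Gp {F : Fam m J} {K n₀ : ℕ} (D : PDat F K n₀) (R : ℕ) (x y : F.Ω) : Prop :=
  D.E (x, y) ∧ D.M (x, y) * 2 ^ R ≤ 2 ^ D.L

/-- **The two hyperplanes of six samples.** -/
theorem six_hyp {F : Fam m J} {A : F.Ω → Prop} {K n₀ : ℕ} {hK : 1 ≤ K} {D : PDat F K n₀}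
    {c : ℕ → Fin m} (hD : D.Ok hK A c) (hw : D.w₀ ≤ J) {R t : ℕ} (hRL : R ≤ D.L)
    (hRn : R ≤ D.Ln) (htR : t ≤ R) {o a b o' a' b' : F.Ω} (mo : A o) (ma : A a)
    (ma' : A a') (za : D.z₀ (ptr F J a) = D.z₀ (ptr F J o))
    (za' : D.z₀ (ptr F J a') = D.z₀ (ptr F J o)) (pt : ptr F J o' = ptr F J o)
    (q01 : Gp D R o a) (q10 : Gp D R a o) (q02 : Gp D R o b) (q12 : Gp D R a b)
    (q34 : Gp D R o' a') (q43 : Gp D R a' o') (q35 : Gp D R o' b') (q45 : Gp D R a' b')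
    (kk : F.Ω → Fin 2 → Fin 4 → ℝ) (hkk : kk = fun x => D.lf (D.z₁ (ptr F J x)) (D.z₀ (ptr F J o)))
    (d1 : |dt3 (kk a) (kk b) (kk o) 2| ≤ 1 / 2 ^ t) (d2 : |dt3 (kk a) (kk b) (kk o) 3| ≤ 1 / 2 ^ t)
    (d3 : |dt3 (kk a) (kk b) (kk a') 2| ≤ 1 / 2 ^ t)
    (d4 : |dt3 (kk a) (kk b) (kk a') 3| ≤ 1 / 2 ^ t)
    (d5 : |dt3 (kk a) (kk b) (kk b') 3| ≤ 1 / 2 ^ t) :
    (∀ i, |HA2 D (a', b') i - HA2 D (a, b) i| ≤
      2592 * (2 ^ D.h) ^ 5 * (2 / 2 ^ t + 1 / 2 ^ t)) ∧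
    |nx F c D.P D.z₀ D.g o 3 - nlv F c D.P D.z₀ D.g D.w₀ 3
      (up5 (HA2 D (a', b'))) o| ≤ 3 * (2 ^ D.h) ^ 2 * (2 / 2 ^ t) := by
  have zo' : D.z₀ (ptr F J o') = D.z₀ (ptr F J o) := congrArg _ pt
  have p2t : (0 : ℝ) < 2 ^ t := by positivity
  -- the errors
  have er : ∀ x : F.Ω × F.Ω, D.M x * 2 ^ R ≤ 2 ^ D.L →
      (1 : ℝ) / 2 ^ D.L ≤ 2 / 2 ^ t ∧ 1 / 2 ^ D.Ln + D.M x / 2 ^ D.L ≤ 2 / 2 ^ t := by
    intro x hx
    have h1 : (1 : ℝ) / 2 ^ R ≤ 1 / 2 ^ t :=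
      one_div_le_one_div_of_le p2t (pow_le_pow_right₀ (by norm_num) htR)
    have h2 : (1 : ℝ) / 2 ^ D.L ≤ 1 / 2 ^ R :=
      one_div_le_one_div_of_le (by positivity) (pow_le_pow_right₀ (by norm_num) hRL)
    have h3 : (1 : ℝ) / 2 ^ D.Ln ≤ 1 / 2 ^ R :=
      one_div_le_one_div_of_le (by positivity) (pow_le_pow_right₀ (by norm_num) hRn)
    have h4 : D.M x / 2 ^ D.L ≤ 1 / 2 ^ R := by
      rw [div_le_div_iff₀ (by positivity) (by positivity)]
      linarith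
    have h5 : (2 : ℝ) / 2 ^ t = 1 / 2 ^ t + 1 / 2 ^ t := by ring
    have h6 : (0 : ℝ) < 1 / 2 ^ t := by positivity
    rw [h5]
    constructor <;> linarith
  have own : ∀ x y : F.Ω, Gp D R x y → D.z₀ (ptr F J x) = D.z₀ (ptr F J o) →
      (npt D c x).On (kk x) (2 / 2 ^ t) := by
    intro x y h1 h3
    have o0 := hD.own₀ (x, y) h1.1
    have o1 := hD.own₁ (x, y) h1.1
    have e1 : kk x = D.lf (D.z₁ (ptr F J x)) (D.z₀ (ptr F J x)) := by
      rw [hkk, h3]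
    rw [e1]
    exact ⟨o0.trans (er _ h1.2).1, o1.trans (er _ h1.2).2⟩
  have onl : ∀ x y : F.Ω, Gp D R x y → D.z₀ (ptr F J x) = D.z₀ (ptr F J o) →
      (npt D c x).On (kk y) (2 / 2 ^ t) := by
    intro x y h1 h3
    have o0 := hD.onl₀ (x, y) h1.1
    have o1 := hD.onl₁ (x, y) h1.1
    have e1 : kk y = D.lf (D.z₁ (ptr F J y)) (D.z₀ (ptr F J x)) := by
      rw [hkk, h3]
    rw [e1]
    exact ⟨o0.trans (er _ h1.2).1, o1.trans (er _ h1.2).2⟩
  have bd : ∀ ω, A ω → (npt D c ω).Bd := by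
    intro ω hω
    have hp : ∀ i < 4, |nx F c D.P D.z₀ D.g ω i| ≤ 1 := by
      intro i hi
      have h1 := hD.pos ω hω i hi
      unfold nx
      rw [abs_mul, abs_of_pos (by positivity : (0 : ℝ) < 2 ^ D.g i)]
      rw [le_div_iff₀ (by positivity)] at h1
      linarith
    obtain ⟨t0, t1⟩ := ntm_bd F hw ω
    exact ⟨t0, t1, hp 0 (by norm_num), hp 1 (by norm_num), hp 2 (by norm_num)⟩
  have siz2 : ∀ x y : F.Ω, Gp D R x y → D.z₀ (ptr F J x) = D.z₀ (ptr F J o) →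
      ∀ j i, |kk y j i| ≤ 2 ^ D.h := by
    intro x y h1 h2 j i
    have h3 := (hD.siz (x, y) h1.1 j i).2
    have e1 : kk y = D.lf (D.z₁ (ptr F J y)) (D.z₀ (ptr F J x)) := by
      rw [hkk, h2]
    rw [e1]
    exact h3
  have gap : ∀ x y : F.Ω, Gp D R x y → D.z₀ (ptr F J x) = D.z₀ (ptr F J o) →
      1 / 2 ^ D.h ≤ |kk y 0 3 - kk x 0 3| := by
    intro x y h1 h2
    have h3 := hD.fal (x, y) h1.1
    have e1 : kk y = D.lf (D.z₁ (ptr F J y)) (D.z₀ (ptr F J x)) := by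
      rw [hkk, h2]
    have e2 : kk x = D.lf (D.z₁ (ptr F J x)) (D.z₀ (ptr F J x)) := by
      rw [hkk, h2]
    rw [e1, e2, abs_sub_comm]
    exact h3
  have hnp : npt D c o' = npt D c o := npt_ptr D c pt
  have hko : kk o' = kk o := by
    rw [hkk]
    show D.lf (D.z₁ (ptr F J o')) _ = _
    rw [pt]
  have hH : (1 : ℝ) ≤ 2 ^ D.h := one_le_pow₀ (by norm_num)
  have ta : 1 / 2 ^ D.h ≤ |(npt D c o).s - (npt D c a).s| := hD.tsp (o, a) q01.1
  have ta' : 1 / 2 ^ D.h ≤ |(npt D c o).s - (npt D c a').s| := by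
    rw [← hnp]
    exact hD.tsp (o', a') q34.1
  have oa' : (npt D c o).On (kk a') (2 / 2 ^ t) := by
    rw [← hnp]
    exact onl o' a' q34 zo'
  have ao' : (npt D c a').On (kk o) (2 / 2 ^ t) := by
    rw [← hko]
    exact onl a' o' q43 za'
  have key := six_close hH (bd _ mo) (bd _ ma) (bd _ ma') ta ta' (siz2 o a q01 rfl)
    (siz2 o b q02 rfl) (siz2 o' a' q34 zo') (siz2 o' b' q35 zo') (gap a b q12 za)
    (gap a' b' q45 za') d1 d2 d3 d4 d5 (own o a q01 rfl) (onl o a q01 rfl) oa'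
    (onl a o q10 za) (own a o q10 za) ao' (own a' o' q43 za')
  have hy1 : HA2 D (a', b') = hy2 (kk a') (kk b') := by
    unfold HA2
    rw [hkk]
    show hy2 (D.lf (D.z₁ (ptr F J a')) (D.z₀ (ptr F J a'))) _ = _
    rw [za']
  have hy2' : HA2 D (a, b) = hy2 (kk a) (kk b) := by
    unfold HA2
    rw [hkk]
    show hy2 (D.lf (D.z₁ (ptr F J a)) (D.z₀ (ptr F J a))) _ = _
    rw [za]
  rw [nlv_up5, hy1, hy2']
  exact ⟨key.1, key.2.1⟩

/-- **Small determinants are rare.** -/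
theorem hypS {S : PCl m} {c : ℕ → Fin m} {w₀ Pa : ℝ} (hw1 : w₀ ≤ 1) (hPa : 0 ≤ Pa)
    (hpos : Bas S (fun _ F A => 0 < Pe F.p A))
    (hno : ∀ h₀ : ℝ, 0 < h₀ → Bas S (fun J F A => ∀ P : ℕ, (Pa + h₀) * J ≤ P → P ≤ J →
      ¬ Afl F c 3 ⌊w₀ * J⌋₊ P A)) : HypS S c w₀ Pa 24 := by
  classical
  intro κ h₀ hκ hh
  obtain ⟨δ, hδ, τ, hτ, J₁, hev⟩ := afp_evJ hw1 (hno h₀ hh)
  obtain ⟨τ₂, hτ₂, J₂, hp⟩ := hpos
  obtain ⟨J₃, hJ₃⟩ := exists_nat_ge (1 / (δ * κ))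
  refine ⟨min τ τ₂, lt_min hτ hτ₂, max (max J₁ J₂) (max J₃ 1), ?_⟩
  intro J hJ F A hA K n₀ hK D hD hDw R t hRL hRn htR hgR hnum
  have j1 : J ≥ J₁ := (le_max_left _ _).trans ((le_max_left _ _).trans hJ)
  have j2 : J ≥ J₂ := (le_max_right _ _).trans ((le_max_left _ _).trans hJ)
  have j3 : J ≥ J₃ := (le_max_left _ _).trans ((le_max_right _ _).trans hJ)
  have j4 : 1 ≤ J := (le_max_right _ _).trans ((le_max_right _ _).trans hJ)
  have hJ0 : (0 : ℝ) ≤ J := Nat.cast_nonneg J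
  have hJ1 : (1 : ℝ) ≤ J := by exact_mod_cast j4
  have hPA := hp J j2 F A (S.mono (min_le_right _ _) hA)
  have hevJ := hev J j1 F A (S.mono (min_le_left _ _) hA)
  have hexp : Real.exp (-(δ * J)) ≤ κ := by
    have h0 : (J₃ : ℝ) ≤ J := by exact_mod_cast j3
    have h1 := hJ₃.trans h0
    rw [div_le_iff₀ (by positivity)] at h1
    have h3 := Real.add_one_le_exp (δ * J)
    have h4 : 0 < Real.exp (δ * J) := Real.exp_pos _
    have h5 : 1 ≤ κ * Real.exp (δ * J) := by nlinarith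
    rw [Real.exp_neg]
    rw [inv_le_iff_one_le_mul₀ h4]
    exact h5
  have hwJ : D.w₀ ≤ J := by
    rw [hDw]
    refine Nat.floor_le_of_le ?_
    nlinarith
  have hnum0 : 0 ≤ (Pa + h₀) * (J : ℝ) := by positivity
  by_cases ht : t < 5 * D.h + 13
  · -- the chart itself
    exfalso
    have hg3 : (Pa + h₀) * J + 11 ≤ D.g 3 := by
      have h1 : (t : ℝ) ≤ 5 * D.h + 12 := by
        have : t ≤ 5 * D.h + 12 := by omega
        exact_mod_cast this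
      have h2 : (0 : ℝ) ≤ D.h := Nat.cast_nonneg _
      nlinarith
    have hg3' : 11 ≤ D.g 3 := by
      have : (11 : ℝ) ≤ D.g 3 := by linarith
      exact_mod_cast this
    have hpn : ∀ ω, A ω → ∀ i < 4, |2 ^ D.g i * ntc F c D.P D.z₀ ω i| ≤ 1 := by
      intro ω hω i hi
      have h1 := hD.pos ω hω i hi
      rw [abs_mul, abs_of_pos (by positivity : (0 : ℝ) < 2 ^ D.g i)]
      rw [le_div_iff₀ (by positivity)] at h1
      linarith
    have h1 := hevJ D.V₀ D.P D.z₀ D.z₀' D.g 0 (fun _ _ => 0) (fun _ _ => 0) A hD.tri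
      (fun v j _ => hD.aff v j) (fun ω h => h) (by
        rw [← hDw]
        exact hD.cls₀) (by omega) (by
        push_cast
        linarith) (by omega)
      (fun ω hω l hl => (hpn ω hω l (by omega)).trans (by norm_num))
      (fun ω hω => by
        have h2 := hpn ω hω 3 (by norm_num)
        have h3 : nlv F c D.P D.z₀ D.g ⌊w₀ * (J : ℝ)⌋₊ 3 ((fun _ _ => (0 : ℝ)) (ptr F J ω)) ω = 0 := by
          unfold Pool.PM26.nlv
          simp
        rw [h3, sub_zero]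
        simpa using h2)
      (fun ω _ j _ => by simp)
    have h2 : Real.exp (-(δ * J)) < 1 := by
      rw [Real.exp_lt_one_iff]
      have : 0 < δ * J := by positivity
      linarith
    nlinarith
  · push Not at ht
    obtain ⟨q, hq⟩ : ∃ q, q = t - (5 * D.h + 13) := ⟨_, rfl⟩
    have hqt : q + (5 * D.h + 13) = t := by omega
    have hqR : (q : ℝ) + 5 * D.h + 13 = t := by
      have : ((q + (5 * D.h + 13) : ℕ) : ℝ) = t := by rw [hqt]
      push_cast at this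
      linarith
    have hh0 : (0 : ℝ) ≤ D.h := Nat.cast_nonneg _
    have hgq : (Pa + h₀) * J + 11 ≤ D.g 3 + q := by nlinarith
    have hgq' : 11 ≤ D.g 3 + q := by
      have : (11 : ℝ) ≤ ((D.g 3 + q : ℕ) : ℝ) := by
        push_cast
        linarith
      exact_mod_cast this
    have p2q : (0 : ℝ) < 2 ^ q := by positivity
    have e2t : (1 : ℝ) / 2 ^ t = 1 / 2 ^ q / (8192 * (2 ^ D.h) ^ 5) := by
      rw [← hqt, pow_add, pow_add, show 5 * D.h = D.h * 5 by ring, pow_mul]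
      field_simp
      norm_num
    have hH : (1 : ℝ) ≤ 2 ^ D.h := one_le_pow₀ (by norm_num)
    have b1 : 2592 * (2 ^ D.h) ^ 5 * (2 / 2 ^ t + 1 / 2 ^ t) ≤ (1 : ℝ) / 2 ^ q := by
      have h1 : (2 : ℝ) / 2 ^ t + 1 / 2 ^ t = 3 * (1 / 2 ^ t) := by ring
      rw [h1, e2t]
      have h2 : 2592 * ((2 : ℝ) ^ D.h) ^ 5 * (3 * (1 / 2 ^ q / (8192 * (2 ^ D.h) ^ 5))) =
          7776 / 8192 * (1 / 2 ^ q) := by
        field_simp
        norm_num
      rw [h2]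
      have : (0 : ℝ) < 1 / 2 ^ q := by positivity
      linarith
    have b2 : 3 * ((2 : ℝ) ^ D.h) ^ 2 * (2 / 2 ^ t) ≤ 1 / 2 ^ q := by
      refine le_trans ?_ b1
      have h1 : ((2 : ℝ) ^ D.h) ^ 2 ≤ (2 ^ D.h) ^ 5 := pow_le_pow_right₀ hH (by norm_num)
      have h2 : (0 : ℝ) < 1 / 2 ^ t := by positivity
      have h3 : (2 : ℝ) / 2 ^ t + 1 / 2 ^ t = 3 * (1 / 2 ^ t) := by ring
      have h4 : (2 : ℝ) / 2 ^ t = 2 * (1 / 2 ^ t) := by ring
      rw [h3, h4]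
      nlinarith
    have hlaw := isLaw_cond F.isLaw hPA
    -- the six samples
    have h6 := six_of (ε := Real.exp (-(δ * J))) hlaw zero_le_one hPA
      (fun ω h => Pool.PLN26.cond_mem F.isLaw.nonneg h)
      (Pool.PLN26.cond_mul F.isLaw.nonneg hPA) (slam F D.w₀) (ptr F J)
      (fun x => up5 (HA2 D x)) (fun ω α β =>
        |2 ^ D.g 3 * ntc F c D.P D.z₀ ω 3 - nlv F c D.P D.z₀ D.g D.w₀ 3 α ω| ≤ 1 / 2 ^ q ∧
          ∀ j < 5, |α j - β j| ≤ 1 / 2 ^ q) (fun α β => by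
        have h1 := hevJ D.V₀ D.P D.z₀ D.z₀' D.g q α β (fun ω => A ω ∧
          |2 ^ D.g 3 * ntc F c D.P D.z₀ ω 3 - nlv F c D.P D.z₀ D.g D.w₀ 3 (α (ptr F J ω)) ω| ≤
            1 / 2 ^ q ∧ ∀ j < 5, |α (ptr F J ω) j - β (slam F D.w₀ ω) j| ≤ 1 / 2 ^ q) hD.tri
          (fun v j _ => hD.aff v j) (fun ω h => h.1) (by
            rw [← hDw]
            exact fun ω h => hD.cls₀ ω h.1) (by omega) (by
            push_cast
            linarith) (by omega)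
          (fun ω hω l hl => by
            have h2 := hD.pos ω hω.1 l (by omega)
            rw [abs_mul, abs_of_pos (by positivity : (0 : ℝ) < 2 ^ D.g l)]
            rw [le_div_iff₀ (by positivity)] at h2
            linarith)
          (by
            rw [← hDw]
            exact fun ω hω => hω.2.1)
          (by
            rw [← hDw]
            exact fun ω hω => hω.2.2)
        exact h1)
    rw [one_mul] at h6
    refine le_trans ?_ (h6.trans hexp)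
    refine Pool.PLN.pe_mono (PC_isLaw hlaw _ _).nonneg ?_
    rintro e he ⟨hs6, hdt⟩
    have hsp := spp hPA he
    have m0 : A e.1.1.1 := hsp.mem 0
    have m1 : A e.1.1.2 := hsp.mem 1
    have m3 : A e.2.1.1 := hsp.mem 3
    have m4 : A e.2.1.2 := hsp.mem 4
    have z1 : D.z₀ (ptr F J e.1.1.2) = D.z₀ (ptr F J e.1.1.1) := by
      rw [hD.cls₀ _ m1, hD.cls₀ _ m0]
      exact congrArg _ hsp.la.symm
    have z3 : D.z₀ (ptr F J e.2.1.1) = D.z₀ (ptr F J e.1.1.1) := congrArg _ hsp.pt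
    have z4 : D.z₀ (ptr F J e.2.1.2) = D.z₀ (ptr F J e.1.1.1) := by
      rw [← z3, hD.cls₀ _ m4, hD.cls₀ _ m3]
      exact congrArg _ hsp.la'.symm
    have g1 := six_hyp (o := e.1.1.1) (a := e.1.1.2) (b := e.1.2.2) (o' := e.2.1.1)
      (a' := e.2.1.2) (b' := e.2.2.2) hD hwJ hRL hRn htR m0 m1 m4 z1 z4 hsp.pt
      (hs6 (0, 1) (by simp [prs])) (hs6 (1, 0) (by simp [prs])) (hs6 (0, 2) (by simp [prs]))
      (hs6 (1, 2) (by simp [prs])) (hs6 (3, 4) (by simp [prs])) (hs6 (4, 3) (by simp [prs]))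
      (hs6 (3, 5) (by simp [prs])) (hs6 (4, 5) (by simp [prs])) _ rfl
      (hdt (0, 2) (by simp [fiv])) (hdt (0, 3) (by simp [fiv])) (hdt (4, 2) (by simp [fiv]))
      (hdt (4, 3) (by simp [fiv])) (hdt (5, 3) (by simp [fiv]))
    refine ⟨g1.2.trans b2, fun j hj => ?_⟩
    have g2 := (g1.1 ⟨j, hj⟩).trans b1
    show |up5 (HA2 D (e.2.1.2, e.2.2.2)) j - up5 (HA2 D (e.1.1.2, e.1.2.2)) j| ≤ _
    unfold up5
    rw [dif_pos hj, dif_pos hj]
    exact g2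

end Pool.PM
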