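import Pool.Agent.H22.M.Stm
import Pool.Agent.H26.PLN.Cor

/-!
# The times of the pairs are separated

`tsp_ev`: the field `tsp` of `PlnM` for the pairs outside a small event.
-/

set_option autoImplicit false

namespace Pool.PM

open Finset Real MvPolynomial
open Pool.Agent.H49.Ent Pool.Agent.H32.Dense Pool.STK Pool.KA Pool.KSAT Pool.K2S Pool.PB
  Pool.STAT Pool.GEN Pool.M3F Pool.KM7 Pool.S6C Pool.JPN
open Pool.GRW (TmWn)
open Pool.PLN (ex ex_add ex_le ex_pos floor_ex const_le_ex pe_mono)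

variable {m : ℕ}

/-- **Separated natural times.** -/
theorem tsp_ev {S : PCl m} {w₀ : ℝ} (hS : TmWn S w₀) (hw : 0 ≤ w₀) (hw1 : w₀ < 1) {b c₀ : ℝ}
    (hb : 0 < b) (hc : 0 < c₀) :
    Bas S (fun J F A => ∀ h : ℕ, ⌊b * J⌋₊ ≤ h →
      Pe (P2 (Pool.Agent.H49.Ent.cond F.p A True) (slam F ⌊w₀ * J⌋₊))
        (fun e => ¬ 1 / 2 ^ h ≤ |nt F ⌊w₀ * J⌋₊ e.1 - nt F ⌊w₀ * J⌋₊ e.2|) ≤ c₀) := by
  classical
  obtain ⟨τ, hτ, J₁, h1⟩ := Pool.PLN26.timC hS hw hw1 (show 0 < b / 2 by linarith) hc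
  obtain ⟨τ₂, hτ₂, J₂, h₂⟩ := hS 1 one_pos
  obtain ⟨J₃, hJ₃⟩ := const_le_ex 2 (show 0 < b / 2 by linarith)
  refine ⟨min τ τ₂, lt_min hτ hτ₂, max (max J₁ J₂) J₃, ?_⟩
  intro J hJ F A hA h hh
  have j1 : J ≥ J₁ := (le_max_left _ _).trans ((le_max_left _ _).trans hJ)
  have j2 : J ≥ J₂ := (le_max_right _ _).trans ((le_max_left _ _).trans hJ)
  have j3 : J ≥ J₃ := (le_max_right _ _).trans hJ
  have hPA := (h₂ J j2 F A (S.mono (min_le_right _ _) hA)).1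
  have hlaw := isLaw_cond F.isLaw hPA
  refine le_trans (pe_mono (P2_isLaw hlaw _).nonneg ?_) (h1 J j1 F A (S.mono (min_le_left _ _) hA))
  intro v hv h3
  obtain ⟨-, -, hs⟩ := (P2_pos hlaw v).1 hv
  obtain ⟨w, hw'⟩ : ∃ w, w = ⌊w₀ * (J : ℝ)⌋₊ := ⟨_, rfl⟩
  rw [← hw'] at h3 hs ⊢
  have e1 : F.T1 w v.1 = F.T1 w v.2 := congrArg (fun y => y.2.2) hs
  have e2 : nt F w v.1 - nt F w v.2 = 2 ^ w * (F.t v.1 - F.t v.2) := by
    unfold nt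
    rw [e1]
    ring
  push Not at h3
  rw [e2, abs_mul, abs_of_pos (by positivity : (0 : ℝ) < 2 ^ w)] at h3
  refine h3.trans_le ?_
  have h4 : (1 : ℝ) / 2 ^ h ≤ 1 / 2 ^ ⌊b * (J : ℝ)⌋₊ :=
    one_div_le_one_div_of_le (by positivity) (pow_le_pow_right₀ (by norm_num) hh)
  refine h4.trans ((floor_ex b J).trans ?_)
  calc 2 * ex b J ≤ ex (-(b / 2)) J * ex b J :=
        mul_le_mul_of_nonneg_right (hJ₃ J j3) (ex_pos _ _).le
    _ = ex (-(b / 2) + b) J := (ex_add _ _ _).symm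
    _ ≤ ex (b / 2) J := ex_le (by linarith) J

end Pool.PM
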