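import Pool.Agent.H26.PM.Sel
import Pool.Agent.H1.GEN.One

/-!
# Hyperplanes which are functions of the line and of the point

`aff c i α`: the affine function of the time and of the coordinates `c l`, `l < i`, with the
coefficients `α`. `top_ok`: a chain of labels and one more two-sided function over its natural
boxes is a chain. `aff_ev`: in a class with the thresholds of the labels of `c i`, an event on which
an affine function of the line is near an affine function of the point which passes through the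
point, with a precision above the threshold, is small. `aff_six`: the same for the hyperplane of
two samples of the line and the hyperplane of two samples of the line of a copy of the sample given
the point, with probability near one. No hypothesis on the size of the coefficients.
-/

set_option autoImplicit false

namespace Pool.PM26

open Finset Real MvPolynomial
open Pool.Agent.H49.Ent Pool.Agent.H32.Dense Pool.STK Pool.KA Pool.KSAT Pool.K2S Pool.PB Pool.S6C
open Pool.GEN (bt bd PtT LnT DepC NBx ChOK ChN Chn nlp)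
open Pool.LBT (LSys Slo Tri ThrOf)
open Pool.LBN (Tch cof cof_lt cof_len)
open Pool.ONE (tgs)
open Pool.KM7 (P2)

variable {m J : ℕ}

/-! ### Affine functions -/

/-- **The affine function** of the time and of the coordinates `c l`, `l < i`: the constant is
`α 0`, the coefficient of the time is `α 1`, the coefficient of `c l` is `α (l + 2)`. -/
noncomputable def aff (c : ℕ → Fin m) (i : ℕ) (α : ℕ → ℝ) : MvPolynomial (Option (Fin m)) ℝ :=
  C (α 0) + C (α 1) * X none + ∑ l ∈ range i, C (α (l + 2)) * X (some (c l))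

theorem eval_aff (c : ℕ → Fin m) (i : ℕ) (α : ℕ → ℝ) (b : Option (Fin m) → ℝ) :
    eval b (aff c i α) = α 0 + α 1 * b none + ∑ l ∈ range i, α (l + 2) * b (some (c l)) := by
  unfold aff
  simp only [map_add, map_mul, eval_C, eval_X, map_sum]

theorem deg_aff (c : ℕ → Fin m) (i : ℕ) (α : ℕ → ℝ) : (aff c i α).totalDegree ≤ 1 := by
  have h0 : ∀ (a : ℝ) (o : Option (Fin m)),
      (C a * X o : MvPolynomial (Option (Fin m)) ℝ).totalDegree ≤ 1 := by
    intro a o
    refine (totalDegree_mul _ _).trans ?_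
    rw [totalDegree_C, zero_add]
    exact (totalDegree_X _).le
  unfold aff
  refine (totalDegree_add _ _).trans (max_le ((totalDegree_add _ _).trans (max_le ?_ (h0 _ _))) ?_)
  · rw [totalDegree_C]
    exact Nat.zero_le _
  · exact totalDegree_finsetSum_le fun l _ => h0 _ _

theorem dep_aff (c : ℕ → Fin m) (i : ℕ) (α : ℕ → ℝ) : DepC c i (aff c i α) := by
  intro b b' h0 h1
  rw [eval_aff, eval_aff, h0]
  congr 1
  exact Finset.sum_congr rfl fun l hl => by rw [h1 l (mem_range.1 hl)]

theorem pd_aff {c : ℕ → Fin m} {i : ℕ} (hc : Set.InjOn c (Set.Iio i)) (α : ℕ → ℝ)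
    (b : Option (Fin m) → ℝ) {l : ℕ} (hl : l < i) :
    eval b (pderiv (some (c l)) (aff c i α)) = α (l + 2) := by
  classical
  unfold aff
  simp only [map_add, map_sum, pderiv_C_mul, pderiv_C, zero_add]
  rw [pderiv_X_of_ne (by simp), mul_zero, map_zero, zero_add, Finset.sum_eq_single l]
  · rw [pderiv_X_self, mul_one, eval_C]
  · intro j hj hjl
    rw [pderiv_X_of_ne, mul_zero, map_zero]
    intro h
    exact hjl (hc (Set.mem_Iio.2 (mem_range.1 hj)) (Set.mem_Iio.2 hl) (Option.some_injective _ h))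
  · intro h
    exact absurd (mem_range.2 hl) h

/-! ### One more function over a chain -/

/-- **A chain of labels and one more two-sided function** over its natural boxes. -/
theorem top_ok {F : Fam m J} {c : ℕ → Fin m} {i a w e e' P K : ℕ} {Kv g : ℕ → ℕ}
    {B : F.Ω → Prop} {G : PtT F → ℕ → MvPolynomial (Option (Fin m)) ℝ}
    {H : LnT F → ℕ → MvPolynomial (Option (Fin m)) ℝ}
    {GN : PtT F → MvPolynomial (Option (Fin m)) ℝ} {HN : LnT F → MvPolynomial (Option (Fin m)) ℝ}
    (hKv : ∀ l < i, Kv l ≤ K) (hee : e ≤ e') (hch : ChOK F c i Kv a w e g B G H)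
    (hdG : ∀ y, (GN y).totalDegree ≤ K) (hdH : ∀ s, (HN s).totalDegree ≤ K)
    (hpG : ∀ y, DepC c i (GN y)) (hpH : ∀ s, DepC c i (HN s))
    (hpos : ∀ ω, B ω → |F.x ω (c i) - eval (bt F ω) (GN (ptr F J ω))| ≤ 1 / 2 ^ P)
    (hagr : ∀ ω, B ω → ∀ b : Option (Fin m) → ℝ, NBx c (G (ptr F J ω)) g a (F.t ω) i b →
      |eval b (GN (ptr F J ω)) - eval b (HN (slam F w ω))| ≤ 1 / 2 ^ P)
    (hlip : ∀ ω, B ω → ∀ b : Option (Fin m) → ℝ, NBx c (G (ptr F J ω)) g a (F.t ω) i b →
      ∀ l < i, |eval b (pderiv (some (c l)) (GN (ptr F J ω)))| ≤ 2 ^ e') :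
    ChOK F c (i + 1) (fun _ => K) a w e' (fun j => if j < i then g j else P) B
      (fun y j => if j < i then G y j else GN y) (fun s j => if j < i then H s j else HN s) := by
  have bx : ∀ {y : PtT F} {t : ℝ} {l : ℕ} {b : Option (Fin m) → ℝ}, l ≤ i →
      NBx c (fun j => if j < i then G y j else GN y)
        (fun j => if j < i then g j else P) a t l b → NBx c (G y) g a t l b := by
    intro y t l b hl hb
    refine ⟨hb.1, fun j hj => ?_⟩
    have h1 := hb.2 j hj
    simp only [if_pos (show j < i by omega)] at h1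
    exact h1
  refine ⟨fun y j => ?_, fun s j => ?_, fun y j => ?_, fun s j => ?_, fun ω hω j hj => ?_,
    fun ω hω j hj b hb => ?_, fun ω hω j hj b hb l hl => ?_⟩
  · show (if j < i then G y j else GN y).totalDegree ≤ K
    split_ifs with h
    · exact (hch.degG y j).trans (hKv j h)
    · exact hdG y
  · show (if j < i then H s j else HN s).totalDegree ≤ K
    split_ifs with h
    · exact (hch.degH s j).trans (hKv j h)
    · exact hdH s
  · show DepC c j (if j < i then G y j else GN y)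
    split_ifs with h
    · exact hch.depG y j
    · exact (hpG y).mono (not_lt.1 h)
  · show DepC c j (if j < i then H s j else HN s)
    split_ifs with h
    · exact hch.depH s j
    · exact (hpH s).mono (not_lt.1 h)
  · show |F.x ω (c j) - eval (bt F ω) (if j < i then G (ptr F J ω) j else GN (ptr F J ω))| ≤
      1 / 2 ^ (if j < i then g j else P)
    by_cases h : j < i
    · rw [if_pos h, if_pos h]
      exact hch.pos ω hω j h
    · have hji : j = i := by omega
      subst hji
      rw [if_neg h, if_neg h]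
      exact hpos ω hω
  · have hb' := bx (by omega) hb
    show |eval b (if j < i then G (ptr F J ω) j else GN (ptr F J ω)) -
      eval b (if j < i then H (slam F w ω) j else HN (slam F w ω))| ≤
        1 / 2 ^ (if j < i then g j else P)
    by_cases h : j < i
    · rw [if_pos h, if_pos h, if_pos h]
      exact hch.agr ω hω j h b hb'
    · have hji : j = i := by omega
      subst hji
      rw [if_neg h, if_neg h, if_neg h]
      exact hagr ω hω b hb'
  · have hb' := bx (by omega) hb
    show |eval b (pderiv (some (c l)) (if j < i then G (ptr F J ω) j else GN (ptr F J ω)))| ≤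
      2 ^ (e' + nlp (fun j => if j < i then g j else P) l j)
    by_cases h : j < i
    · have e1 : nlp (fun j => if j < i then g j else P) l j = nlp g l j := by
        unfold Pool.GEN.nlp
        simp only [if_pos h]
        rw [Finset.sup_congr rfl fun x hx =>
          if_pos (lt_of_le_of_lt (Finset.mem_Icc.1 hx).2 h)]
      rw [if_pos h, e1]
      refine (hch.lip ω hω j h b hb' l hl).trans ?_
      exact pow_le_pow_right₀ (by norm_num) (by omega)
    · have hji : j = i := by omega
      subst hji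
      rw [if_neg h]
      refine (hlip ω hω b hb' l hl).trans ?_
      exact pow_le_pow_right₀ (by norm_num) (by omega)

/-- Affine functions of a finite set of samples have bounded coefficients. -/
theorem aff_bd (F : Fam m J) (i : ℕ) (α : F.Ω → ℕ → ℝ) :
    ∃ e : ℕ, ∀ ω, ∀ l < i, |α ω (l + 2)| ≤ 2 ^ e := by
  classical
  obtain ⟨M, hM⟩ : ∃ M : ℝ, M = ∑ ω : F.Ω, ∑ l ∈ range i, |α ω (l + 2)| := ⟨_, rfl⟩
  obtain ⟨e, he⟩ := pow_unbounded_of_one_lt M (one_lt_two)
  refine ⟨e, fun ω l hl => le_trans ?_ he.le⟩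
  rw [hM]
  refine le_trans ?_ (Finset.single_le_sum (f := fun ω => ∑ l ∈ range i, |α ω (l + 2)|)
    (fun ω _ => Finset.sum_nonneg fun l _ => abs_nonneg _) (Finset.mem_univ ω))
  exact Finset.single_le_sum (f := fun l => |α ω (l + 2)|) (fun l _ => abs_nonneg _)
    (mem_range.2 hl)

/-! ### Class level -/

variable {n : ℕ}

theorem lst_facts {c : ℕ → Fin n} {i : ℕ} (hc : Set.InjOn c (Set.Iio (i + 1))) :
    ((List.range i).map c).Nodup ∧ c i ∉ (List.range i).map c ∧
      ((List.range i).map c).length = i ∧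
      ∀ j ≤ i, c j = cof ((List.range i).map c) (c i) j := by
  have hlen : ((List.range i).map c).length = i := by simp
  refine ⟨?_, ?_, hlen, ?_⟩
  · refine List.Nodup.map_on (fun x hx y hy hxy => ?_) List.nodup_range
    exact hc (Set.mem_Iio.2 (by have := List.mem_range.1 hx; omega))
      (Set.mem_Iio.2 (by have := List.mem_range.1 hy; omega)) hxy
  · intro h
    obtain ⟨x, hx, hxi⟩ := List.mem_map.1 h
    have h1 := List.mem_range.1 hx
    have := hc (Set.mem_Iio.2 (by omega)) (Set.mem_Iio.2 (by omega)) hxi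
    omega
  · intro j hj
    rcases hj.lt_or_eq with h | h
    · rw [cof_lt (by rw [hlen]; exact h)]
      simp
    · subst h
      have h1 := cof_len ((List.range j).map c) (c j)
      rw [hlen] at h1
      exact h1.symm

/-- **Affine functions of the line near affine functions of the point**, on the natural boxes of a
chain of labels, with a precision above the threshold: a small event. -/
theorem aff_ev {S : PCl n} {P : ℝ → ℝ → ℝ} (c : ℕ → Fin n) (i : ℕ)
    (hc : Set.InjOn c (Set.Iio (i + 1))) (hP : ThrOf (tgs (c i)) S (fun _ => P)) (K : ℕ)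
    (hK : 1 ≤ K) (W : ℚ) (h : ℝ) (hW0 : 0 ≤ W) (hW1 : W ≤ 1) (hh : 0 < h)
    (h1 : P W W + h ≤ 1) :
    ∃ δ : ℝ, 0 < δ ∧ Bas S (fun J F A => ∀ (a w e Q : ℕ) (Kv g : ℕ → ℕ)
      (G : PtT F → ℕ → MvPolynomial (Option (Fin n)) ℝ)
      (H : LnT F → ℕ → MvPolynomial (Option (Fin n)) ℝ) (α : PtT F → ℕ → ℝ)
      (β : LnT F → ℕ → ℝ),
      w ≤ a → a ≤ ⌊(W : ℝ) * J⌋₊ → (∀ l < i, Kv l ≤ K) → (∀ l < i, g l ≤ J) → Q ≤ J →
      ⌊(P W W + h) * J⌋₊ + a ≤ Q + ⌊(W : ℝ) * J⌋₊ →
      ∀ (B : F.Ω → Prop), Sub B A → ChOK F c i Kv a w e g B G H →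
      (∀ ω, B ω → |F.x ω (c i) - eval (bt F ω) (aff c i (α (ptr F J ω)))| ≤ 1 / 2 ^ Q) →
      (∀ ω, B ω → ∀ b : Option (Fin n) → ℝ, NBx c (G (ptr F J ω)) g a (F.t ω) i b →
        |eval b (aff c i (α (ptr F J ω))) - eval b (aff c i (β (slam F w ω)))| ≤ 1 / 2 ^ Q) →
      Pe F.p B ≤ Real.exp (-(δ * J)) * Pe F.p A) := by
  obtain ⟨l1, l2, l3, l4⟩ := lst_facts hc
  obtain ⟨τ, hτ, J₁, hno⟩ := hP.no () K W W h hW0 le_rfl hW1 hh h1
  refine ⟨τ / 2, by linarith, τ / 2, by linarith, J₁, ?_⟩
  intro J hJ F A hA a w e Q Kv g G H α β k1 k2 k3 k4 k5 k6 B hBA hch hpos hagr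
  by_contra hcon
  push Not at hcon
  have hB : S.St (τ / 2 + τ / 2) J F B := S.res (by linarith) hA hBA hcon.le
  rw [add_halves] at hB
  obtain ⟨e₁, he₁⟩ := aff_bd F i (fun ω => α (ptr F J ω))
  have hc' : Set.InjOn c (Set.Iio i) := hc.mono (Set.Iio_subset_Iio (Nat.le_succ i))
  have hch' := top_ok (e' := max e e₁) (P := Q) (K := K) (GN := fun y => aff c i (α y))
    (HN := fun s => aff c i (β s)) k3 (le_max_left _ _) hch
    (fun y => (deg_aff c i _).trans hK) (fun s => (deg_aff c i _).trans hK)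
    (fun y => dep_aff c i _) (fun s => dep_aff c i _) hpos hagr (fun ω hω b _ l hl => by
      rw [pd_aff hc' _ b hl]
      exact (he₁ ω l hl).trans (pow_le_pow_right₀ (by norm_num) (le_max_right _ _)))
  refine hno J hJ F B hB ⟨(List.range i).map c, l1, l2, a, w, max e e₁,
    (fun j => if j < i then g j else Q), k1, k2, k1.trans k2, ?_, ?_, ?_⟩
  · rw [l3]
    show _ ≤ (if i < i then g i else Q) + _
    rw [if_neg (lt_irrefl i)]
    exact k6
  · intro j _
    dsimp only
    split_ifs with hj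
    · exact k4 j hj
    · exact k5
  · refine Pool.LBN.chn_congr (c := c) (K := fun _ => K)
      (g := fun j => if j < i then g j else Q) ?_ ?_ (fun _ _ => le_rfl) (fun _ _ => rfl)
    · rw [l3]
      exact ⟨_, _, hch'⟩
    · rw [l3]
      exact fun j hj => l4 j (by omega)

/-- **Hyperplanes of two samples of the line**, for a sample and for a copy of the sample given the
point: in the coupling of six samples the hyperplane `HA (a', b')` passes through the point of
`o` and agrees with `HA (a, b)` on the natural box of `o`, with a precision above the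
threshold, with small probability only. -/
theorem aff_six {S : PCl n} {P : ℝ → ℝ → ℝ} (c : ℕ → Fin n) (i : ℕ)
    (hc : Set.InjOn c (Set.Iio (i + 1))) (hP : ThrOf (tgs (c i)) S (fun _ => P)) (K : ℕ)
    (hK : 1 ≤ K) (W : ℚ) (h : ℝ) (hW0 : 0 ≤ W) (hW1 : W ≤ 1) (hh : 0 < h)
    (h1 : P W W + h ≤ 1) :
    ∃ δ : ℝ, 0 < δ ∧ Bas S (fun J F A => ∀ (a w e Q : ℕ) (Kv g : ℕ → ℕ)
      (G : PtT F → ℕ → MvPolynomial (Option (Fin n)) ℝ)
      (H : LnT F → ℕ → MvPolynomial (Option (Fin n)) ℝ) (HA : F.Ω × F.Ω → ℕ → ℝ),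
      w ≤ a → a ≤ ⌊(W : ℝ) * J⌋₊ → (∀ l < i, Kv l ≤ K) → (∀ l < i, g l ≤ J) → Q ≤ J →
      ⌊(P W W + h) * J⌋₊ + a ≤ Q + ⌊(W : ℝ) * J⌋₊ →
      ∀ (B : F.Ω → Prop), Sub B A → ChOK F c i Kv a w e g B G H →
      ∀ (q : F.Ω → ℝ) (M : ℝ), IsLaw q → 0 ≤ M → (∀ ω, q ω * Pe F.p A ≤ M * F.p ω) →
      0 < Pe F.p A →
      Pe (PC q (slam F w) (ptr F J)) (fun e => B e.1.1.1 ∧
        |F.x e.1.1.1 (c i) - eval (bt F e.1.1.1) (aff c i (HA (e.2.1.2, e.2.2.2)))| ≤ 1 / 2 ^ Q ∧
        ∀ b : Option (Fin n) → ℝ, NBx c (G (ptr F J e.1.1.1)) g a (F.t e.1.1.1) i b →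
          |eval b (aff c i (HA (e.2.1.2, e.2.2.2))) - eval b (aff c i (HA (e.1.1.2, e.1.2.2)))| ≤
            1 / 2 ^ Q) ≤ M * Real.exp (-(δ * J))) := by
  classical
  obtain ⟨δ, hδ, τ, hτ, J₁, hev⟩ := aff_ev c i hc hP K hK W h hW0 hW1 hh h1
  refine ⟨δ, hδ, τ, hτ, J₁, ?_⟩
  intro J hJ F A hA a w e Q Kv g G H HA k1 k2 k3 k4 k5 k6 B hBA hch q M hq hM hqM hPA
  obtain ⟨sL, sP, hs⟩ := six_sel hq (slam F w) (ptr F J) (fun o y z => B o ∧
    |F.x o (c i) - eval (bt F o) (aff c i (HA z.2))| ≤ 1 / 2 ^ Q ∧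
    ∀ b : Option (Fin n) → ℝ, NBx c (G (ptr F J o)) g a (F.t o) i b →
      |eval b (aff c i (HA z.2)) - eval b (aff c i (HA y))| ≤ 1 / 2 ^ Q)
  refine hs.trans ?_
  obtain ⟨B', hB'⟩ : ∃ B' : F.Ω → Prop, B' = fun o => B o ∧
    |F.x o (c i) - eval (bt F o) (aff c i (HA (sP (ptr F J o)).2))| ≤ 1 / 2 ^ Q ∧
    ∀ b : Option (Fin n) → ℝ, NBx c (G (ptr F J o)) g a (F.t o) i b →
      |eval b (aff c i (HA (sP (ptr F J o)).2)) -
        eval b (aff c i (HA (sL (slam F w o))))| ≤ 1 / 2 ^ Q := ⟨_, rfl⟩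
  have hB'B : Sub B' B := fun ω hω => by
    rw [hB'] at hω
    exact hω.1
  have h2 := hev J hJ F A hA a w e Q Kv g G H (fun y => HA (sP y).2) (fun s => HA (sL s))
    k1 k2 k3 k4 k5 k6 B' (fun ω hω => hBA ω (hB'B ω hω)) (hch.sub hB'B)
    (fun ω hω => by
      rw [hB'] at hω
      exact hω.2.1)
    (fun ω hω => by
      rw [hB'] at hω
      exact hω.2.2)
  have h4 : Pe q B' * Pe F.p A ≤ M * Pe F.p B' := by
    rw [Pool.JVE.pe_sum q, Pool.JVE.pe_sum F.p B', Finset.sum_mul, Finset.mul_sum]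
    refine Finset.sum_le_sum fun ω _ => ?_
    split_ifs with h5
    · exact hqM ω
    · rw [zero_mul, mul_zero]
  have h6 : Pe q B' * Pe F.p A ≤ M * (Real.exp (-(δ * J)) * Pe F.p A) :=
    h4.trans (mul_le_mul_of_nonneg_left h2 hM)
  rw [← mul_assoc] at h6
  have h7 := le_of_mul_le_mul_right h6 hPA
  rw [hB'] at h7
  exact h7

end Pool.PM26
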