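import Pool.Agent.H26.PM.Rnd
import Pool.Agent.H26.PM.Lab
import Pool.Agent.H26.PM.Hp
import Pool.Agent.H5.M3F.Jtp
import Pool.Agent.H1.PLN.Prb

/-!
# Affine labels and natural coordinates

`Afc`: an affine label of a coordinate, closed at a window; only the own point counts. `AfNo`: there
is no such label above the threshold. `nec`: exact natural coordinates in an affine chart. `afn_ev`:
in a class with a threshold, an event on which an affine function of the line in natural coordinates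
is near an affine function of the point which passes through the point, with a precision above
the threshold, is small.
-/

set_option autoImplicit false

namespace Pool.PM26

open Finset Real MvPolynomial
open Pool.Agent.H49.Ent Pool.Agent.H32.Dense Pool.STK Pool.KA Pool.KSAT Pool.K2S Pool.PB Pool.S6C
open Pool.STAT (PN TriN)
open Pool.M3F (bk eval_bk bk_deg bk_dep)
open Pool.GEN (bt PtT LnT DepC)
open Pool.AFF (af4)

variable {m J : ℕ}

/-- **An affine label** of the coordinate `c i`, closed at the window `w`. -/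
def Afc (F : Fam m J) (c : ℕ → Fin m) (i w P : ℕ) (A : F.Ω → Prop) : Prop :=
  ∃ (V : Type) (z : PtT F → V) (z' : LnT F → V) (al : V → MvPolynomial (Option (Fin m)) ℝ),
    (∀ v, (al v).totalDegree ≤ 1) ∧ (∀ v, DepC c i (al v)) ∧
    (∀ ω, A ω → z (ptr F J ω) = z' (slam F w ω)) ∧
    ∀ ω, A ω → |F.x ω (c i) - eval (bt F ω) (al (z (ptr F J ω)))| ≤ 1 / 2 ^ P

/-- **No affine label** above the threshold `Pa`, at the window `w₀`. -/
def AfNo (S : PCl m) (c : ℕ → Fin m) (i : ℕ) (w₀ Pa : ℝ) : Prop :=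
  ∀ h₀ : ℝ, 0 < h₀ → Bas S (fun J F A => ∀ P : ℕ, (Pa + h₀) * J ≤ P → ¬ Afc F c i ⌊w₀ * J⌋₊ P A)

/-- The exact point. -/
noncomputable def xe (F : Fam m J) (c : ℕ → Fin m) (ω : F.Ω) (i : ℕ) : ℝ :=
  if i = 0 then F.t ω else F.x ω (c (i - 1))

/-- The exact natural coordinates in the chart `Q`. -/
noncomputable def nec (F : Fam m J) (c : ℕ → Fin m) (Q : ℕ → PN) (g : ℕ → ℕ) (ω : F.Ω) (i : ℕ) :
    ℝ := (2 : ℝ) ^ g i * (F.x ω (c i) - eval (xe F c ω) (Q (i + 1)))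

theorem eval_bk_bt (F : Fam m J) (c : ℕ → Fin m) (Q : PN) (ω : F.Ω) :
    eval (bt F ω) (bk c Q) = eval (xe F c ω) Q := by
  rw [eval_bk]
  rfl

/-- The polynomial of the natural coordinate `i`. -/
noncomputable def nqp (c : ℕ → Fin m) (Q : ℕ → PN) (g : ℕ → ℕ) (i : ℕ) :
    MvPolynomial (Option (Fin m)) ℝ := C ((2 : ℝ) ^ g i) * (X (some (c i)) - bk c (Q (i + 1)))

/-- The polynomial of the affine function `κ` of the natural coordinates. -/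
noncomputable def nap (c : ℕ → Fin m) (Q : ℕ → PN) (g : ℕ → ℕ) (w T : ℕ) (κ : Fin 5 → ℝ) :
    MvPolynomial (Option (Fin m)) ℝ :=
  bk c (Q 4) + C ((1 : ℝ) / 2 ^ g 3) * (C (κ 0) + C (κ 1) * (C ((2 : ℝ) ^ w) * X none - C (T : ℝ)) +
    C (κ 2) * nqp c Q g 0 + C (κ 3) * nqp c Q g 1 + C (κ 4) * nqp c Q g 2)

theorem eval_nap (F : Fam m J) (c : ℕ → Fin m) (Q : ℕ → PN) (g : ℕ → ℕ) (w T : ℕ)
    (κ : Fin 5 → ℝ) (ω : F.Ω) :
    F.x ω (c 3) - eval (bt F ω) (nap c Q g w T κ) = 1 / 2 ^ g 3 * (nec F c Q g ω 3 -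
      af4 κ (2 ^ w * F.t ω - T) (nec F c Q g ω 0) (nec F c Q g ω 1) (nec F c Q g ω 2)) := by
  have hp : (0 : ℝ) < 2 ^ g 3 := by positivity
  have hq : ∀ i, eval (bt F ω) (nqp c Q g i) = nec F c Q g ω i := by
    intro i
    unfold nqp nec
    rw [map_mul, eval_C, map_sub, eval_X, eval_bk_bt]
    rfl
  unfold nap
  simp only [map_add, map_mul, map_sub, eval_C, eval_X, hq, eval_bk_bt]
  have e1 : (bt F ω) none = F.t ω := rfl
  rw [e1]
  unfold af4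
  have e2 : F.x ω (c 3) = eval (xe F c ω) (Q 4) + 1 / 2 ^ g 3 * nec F c Q g ω 3 := by
    unfold nec
    field_simp
    ring
  rw [e2]
  ring

theorem deg_nqp {c : ℕ → Fin m} {Q : ℕ → PN} {g : ℕ → ℕ} (hQ : ∀ i, (Q i).totalDegree ≤ 1)
    (i : ℕ) : (nqp c Q g i).totalDegree ≤ 1 := by
  unfold nqp
  refine (totalDegree_mul _ _).trans ?_
  rw [totalDegree_C, zero_add]
  refine (totalDegree_sub _ _).trans (max_le (totalDegree_X _).le ?_)
  exact (bk_deg c _).trans (hQ _)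

theorem deg_nap {c : ℕ → Fin m} {Q : ℕ → PN} {g : ℕ → ℕ} (hQ : ∀ i, (Q i).totalDegree ≤ 1)
    (w T : ℕ) (κ : Fin 5 → ℝ) : (nap c Q g w T κ).totalDegree ≤ 1 := by
  have hC : ∀ (a : ℝ) (p : MvPolynomial (Option (Fin m)) ℝ), p.totalDegree ≤ 1 →
      (C a * p).totalDegree ≤ 1 := by
    intro a p hp
    refine (totalDegree_mul _ _).trans ?_
    rw [totalDegree_C, zero_add]
    exact hp
  have hA : ∀ p q : MvPolynomial (Option (Fin m)) ℝ, p.totalDegree ≤ 1 → q.totalDegree ≤ 1 →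
      (p + q).totalDegree ≤ 1 := fun p q hp hq => (totalDegree_add _ _).trans (max_le hp hq)
  unfold nap
  refine hA _ _ ((bk_deg c _).trans (hQ _)) (hC _ _ (hA _ _ (hA _ _ (hA _ _ (hA _ _ ?_
    (hC _ _ ?_)) (hC _ _ (deg_nqp hQ 0))) (hC _ _ (deg_nqp hQ 1))) (hC _ _ (deg_nqp hQ 2))))
  · rw [totalDegree_C]
    exact Nat.zero_le _
  · refine (totalDegree_sub _ _).trans (max_le (hC _ _ (totalDegree_X _).le) ?_)
    rw [totalDegree_C]
    exact Nat.zero_le _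

theorem dep_nap {c : ℕ → Fin m} {Q : ℕ → PN} {g : ℕ → ℕ} (hQ : TriN Q) (w T : ℕ)
    (κ : Fin 5 → ℝ) : DepC c 3 (nap c Q g w T κ) := by
  have hb : ∀ i ≤ 4, DepC c 3 (bk c (Q i)) := fun i hi =>
    bk_dep ((hQ i).trans (Finset.range_subset_range.2 (by omega)))
  intro b b' h0 h
  have hq : ∀ i < 3, eval b (nqp c Q g i) = eval b' (nqp c Q g i) := by
    intro i hi
    unfold nqp
    rw [map_mul, map_mul, map_sub, map_sub, eval_X, eval_X, hb (i + 1) (by omega) b b' h0 h,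
      h i hi, eval_C, eval_C]
  unfold nap
  simp only [map_add, map_mul, map_sub, eval_C, eval_X]
  rw [hb 4 le_rfl b b' h0 h, hq 0 (by norm_num), hq 1 (by norm_num), hq 2 (by norm_num), h0]

/-- The natural time. -/
theorem nt_bd (F : Fam m J) {w : ℕ} (hw : w ≤ J) (ω : F.Ω) :
    0 ≤ 2 ^ w * F.t ω - F.T1 w ω ∧ 2 ^ w * F.t ω - F.T1 w ω ≤ 1 := by
  have e1 : (2 : ℝ) ^ w * F.t ω = (F.T ω : ℝ) / 2 ^ (J - w) := by
    unfold Fam.t
    rw [show (2 : ℝ) ^ J = 2 ^ w * 2 ^ (J - w) by rw [← pow_add]; congr 1; omega]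
    field_simp
  rw [e1]
  have e2 : ((2 : ℝ) ^ (J - w)) = ((2 ^ (J - w) : ℕ) : ℝ) := by push_cast; rfl
  have e3 : (F.T1 w ω : ℕ) = F.T ω / 2 ^ (J - w) := rfl
  rw [e3, e2]
  have hq : (0 : ℝ) < ((2 ^ (J - w) : ℕ) : ℝ) := by positivity
  have e4 : ((F.T ω / 2 ^ (J - w) : ℕ) : ℝ) ≤ (F.T ω : ℝ) / ((2 ^ (J - w) : ℕ) : ℝ) :=
    Nat.cast_div_le
  have e5 : (F.T ω : ℝ) / ((2 ^ (J - w) : ℕ) : ℝ) < ((F.T ω / 2 ^ (J - w) : ℕ) : ℝ) + 1 := by
    rw [div_lt_iff₀ hq]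
    have := Nat.lt_div_mul_add (a := F.T ω) (b := 2 ^ (J - w)) (by positivity)
    have h7 : (F.T ω : ℝ) < ((F.T ω / 2 ^ (J - w) * 2 ^ (J - w) + 2 ^ (J - w) : ℕ) : ℝ) := by
      exact_mod_cast this
    refine h7.trans_le (le_of_eq ?_)
    push_cast
    ring
  constructor <;> linarith

theorem af4_sub (p p' : Fin 5 → ℝ) (s y z v : ℝ) :
    af4 p s y z v - af4 p' s y z v = af4 (fun i => p i - p' i) s y z v := by
  unfold af4
  ring

theorem af4_le {p : Fin 5 → ℝ} {ε s y z v : ℝ} (hp : ∀ i, |p i| ≤ ε) (hs0 : 0 ≤ s) (hs1 : s ≤ 1)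
    (hy : |y| ≤ 2) (hz : |z| ≤ 2) (hv : |v| ≤ 2) : |af4 p s y z v| ≤ 8 * ε := by
  have hε : 0 ≤ ε := (abs_nonneg _).trans (hp 0)
  have hm : ∀ (a b : ℝ), |a| ≤ ε → |b| ≤ 2 → |a * b| ≤ 2 * ε := by
    intro a b ha hb
    rw [abs_mul]
    calc |a| * |b| ≤ ε * 2 := mul_le_mul ha hb (abs_nonneg _) hε
      _ = 2 * ε := by ring
  have h1 : |p 1 * s| ≤ ε := by
    rw [abs_mul, abs_of_nonneg hs0]
    calc |p 1| * s ≤ ε * 1 := mul_le_mul (hp 1) hs1 hs0 hε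
      _ = ε := mul_one _
  have h0 := hp 0
  have h2 := hm _ _ (hp 2) hy
  have h3 := hm _ _ (hp 3) hz
  have h4 := hm _ _ (hp 4) hv
  unfold af4
  rw [abs_le] at h0 h1 h2 h3 h4 ⊢
  constructor <;> linarith [h0.1, h0.2, h1.1, h1.2, h2.1, h2.2, h3.1, h3.2, h4.1, h4.2]

/-- **The closing in natural coordinates.** -/
theorem afn_ev {S : PCl m} {c : ℕ → Fin m} {w₀ Pa : ℝ} (hno : AfNo S c 3 w₀ Pa) (hw0 : 0 ≤ w₀)
    (hw1 : w₀ ≤ 1) {h₀ : ℝ} (hh : 0 < h₀) :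
    ∃ δ : ℝ, 0 < δ ∧ Bas S (fun J F A => ∀ (V₀ : Type) (Q : V₀ → ℕ → PN) (z₀ : PtT F → V₀)
      (z₀' : LnT F → V₀) (g : ℕ → ℕ) (q : ℕ) (α : PtT F → Fin 5 → ℝ) (β : LnT F → Fin 5 → ℝ)
      (B : F.Ω → Prop), (∀ v, TriN (Q v)) → (∀ v i, (Q v i).totalDegree ≤ 1) → Sub B A →
      (∀ ω, B ω → z₀ (ptr F J ω) = z₀' (slam F ⌊w₀ * J⌋₊ ω)) → 8 ≤ g 3 + q →
      (Pa + h₀) * J + 8 ≤ g 3 + q →
      (∀ ω, B ω → ∀ i < 3, |nec F c (Q (z₀ (ptr F J ω))) g ω i| ≤ 2) →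
      (∀ ω, B ω → |nec F c (Q (z₀ (ptr F J ω))) g ω 3 - af4 (α (ptr F J ω))
        (2 ^ ⌊w₀ * J⌋₊ * F.t ω - F.T1 ⌊w₀ * J⌋₊ ω) (nec F c (Q (z₀ (ptr F J ω))) g ω 0)
        (nec F c (Q (z₀ (ptr F J ω))) g ω 1) (nec F c (Q (z₀ (ptr F J ω))) g ω 2)| ≤
          1 / 2 ^ q) →
      (∀ ω, B ω → ∀ i, |α (ptr F J ω) i - β (slam F ⌊w₀ * J⌋₊ ω) i| ≤ 1 / 2 ^ q) →
      Pe F.p B ≤ Real.exp (-(δ * J)) * Pe F.p A) := by
  classical
  obtain ⟨τ, hτ, J₁, hT⟩ := hno h₀ hh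
  obtain ⟨J₂, hJ₂⟩ := exists_nat_ge (4 / τ)
  refine ⟨τ / 4, by linarith, τ / 2, by linarith, max J₁ J₂, ?_⟩
  intro J hJ F A hA V₀ Q z₀ z₀' g q α β B hQ hQ1 hBA hcl hg8 hnum hne hown hab
  by_contra hcon
  push Not at hcon
  have hJ0 : (0 : ℝ) ≤ J := Nat.cast_nonneg J
  have hJ' : 4 / τ ≤ J := by
    have : (J₂ : ℝ) ≤ J := by exact_mod_cast (le_max_right _ _).trans hJ
    exact hJ₂.trans this
  have hτJ : 1 ≤ τ / 4 * J := by
    rw [div_le_iff₀ hτ] at hJ'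
    linarith
  obtain ⟨w, hw⟩ : ∃ w, w = ⌊w₀ * (J : ℝ)⌋₊ := ⟨_, rfl⟩
  have hwJ : w ≤ J := by
    rw [hw]
    refine Nat.floor_le_of_le ?_
    nlinarith
  rw [← hw] at hcl hown hab
  have h2q : (0 : ℝ) < 2 ^ q := by positivity
  -- rounding
  obtain ⟨j, hj, hB'⟩ := rnd_ev F.isLaw.nonneg (n := 5) (by norm_num) B
    (fun ω i => 2 ^ q / 16 * α (ptr F J ω) i) (fun ω i => 2 ^ q / 16 * β (slam F w ω) i)
    (fun ω hω i => by
      have h1 := hab ω hω i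
      rw [← mul_sub, abs_mul, abs_of_pos (by positivity : (0 : ℝ) < 2 ^ q / 16)]
      calc (2 : ℝ) ^ q / 16 * |α (ptr F J ω) i - β (slam F w ω) i| ≤ 2 ^ q / 16 * (1 / 2 ^ q) :=
            mul_le_mul_of_nonneg_left h1 (by positivity)
        _ = 1 / 16 := by field_simp
        _ ≤ 1 / (2 * 5 : ℕ) := by norm_num)
  obtain ⟨B', hB'd⟩ : ∃ B' : F.Ω → Prop, B' = fun ω => B ω ∧ ∀ i : Fin 5,
      rsh (2 * 5) j (2 ^ q / 16 * α (ptr F J ω) i) =
        rsh (2 * 5) j (2 ^ q / 16 * β (slam F w ω) i) := ⟨_, rfl⟩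
  have hB'' : Pe F.p B ≤ 2 * Pe F.p B' := by
    rw [hB'd]
    exact hB'
  have hsub : Sub B' A := fun ω hω => by
    rw [hB'd] at hω
    exact hBA ω hω.1
  have hmass : Real.exp (-(τ / 2 * J)) * Pe F.p A ≤ Pe F.p B' := by
    have h1 : Real.exp (-(τ / 2 * J)) ≤ Real.exp (-(τ / 4 * J)) / 2 := by
      have h2 : Real.exp (-(τ / 2 * J)) = Real.exp (-(τ / 4 * J)) * Real.exp (-(τ / 4 * J)) := by
        rw [← Real.exp_add]
        congr 1
        ring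
      have h3 : Real.exp (-(τ / 4 * J)) ≤ 1 / 2 := by
        have h4 : Real.exp (-(τ / 4 * J)) ≤ Real.exp (-1) := Real.exp_le_exp.2 (by linarith)
        have h5 := Real.exp_neg_one_lt_d9
        linarith
      rw [h2]
      have h6 := Real.exp_pos (-(τ / 4 * J))
      nlinarith
    have h0 := Pool.PLN.pe_nonneg F.isLaw.nonneg A
    have h2 : Real.exp (-(τ / 2 * J)) * Pe F.p A ≤ Real.exp (-(τ / 4 * J)) / 2 * Pe F.p A :=
      mul_le_mul_of_nonneg_right h1 h0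
    linarith
  have hSt : S.St (τ / 2 + τ / 2) J F B' := S.res (by linarith) hA hsub hmass
  rw [add_halves] at hSt
  refine hT J ((le_max_left _ _).trans hJ) F B' hSt (g 3 + q - 8) ?_ ?_
  · rw [Nat.cast_sub hg8]
    push_cast
    linarith
  · rw [← hw]
    refine ⟨(V₀ × ℕ) × (Fin 5 → ℤ),
      fun y => ((z₀ y, y.2.1 / 2 ^ (J - w)), fun i => rsh (2 * 5) j (2 ^ q / 16 * α y i)),
      fun s => ((z₀' s, s.2.2), fun i => rsh (2 * 5) j (2 ^ q / 16 * β s i)),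
      fun v => nap c (Q v.1.1) g w v.1.2 (fun i => 16 / 2 ^ q * (v.2 i : ℝ)),
      fun v => deg_nap (hQ1 _) _ _ _, fun v => dep_nap (hQ _) _ _ _, fun ω hω => ?_,
      fun ω hω => ?_⟩
    · rw [hB'd] at hω
      refine Prod.ext (Prod.ext (hcl ω hω.1) rfl) ?_
      funext i
      exact hω.2 i
    · rw [hB'd] at hω
      have hω := hω.1
      have e1 := eval_nap F c (Q (z₀ (ptr F J ω))) g w (F.T1 w ω)
        (fun i => 16 / 2 ^ q * (rsh (2 * 5) j (2 ^ q / 16 * α (ptr F J ω) i) : ℝ)) ω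
      have e2 : F.x ω (c 3) - eval (bt F ω) ((fun v : (V₀ × ℕ) × (Fin 5 → ℤ) =>
          nap c (Q v.1.1) g w v.1.2 (fun i => 16 / 2 ^ q * (v.2 i : ℝ)))
          ((z₀ (ptr F J ω), (ptr F J ω).2.1 / 2 ^ (J - w)),
            fun i => rsh (2 * 5) j (2 ^ q / 16 * α (ptr F J ω) i))) =
          F.x ω (c 3) - eval (bt F ω) (nap c (Q (z₀ (ptr F J ω))) g w (F.T1 w ω)
            (fun i => 16 / 2 ^ q * (rsh (2 * 5) j (2 ^ q / 16 * α (ptr F J ω) i) : ℝ))) := rfl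
      rw [e2, e1, abs_mul, abs_of_pos (by positivity : (0 : ℝ) < 1 / 2 ^ g 3)]
      obtain ⟨ht0, ht1⟩ := nt_bd F hwJ ω
      have hn := hne ω hω
      have ho := hown ω hω
      obtain ⟨κ, hκ⟩ : ∃ κ : Fin 5 → ℝ, κ = fun i =>
        16 / 2 ^ q * (rsh (2 * 5) j (2 ^ q / 16 * α (ptr F J ω) i) : ℝ) := ⟨_, rfl⟩
      rw [← hκ]
      have hd : ∀ i, |α (ptr F J ω) i - κ i| ≤ 16 / 2 ^ q := by
        intro i
        have h1 := rsh_near hj (2 ^ q / 16 * α (ptr F J ω) i)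
        rw [hκ]
        have h2 : α (ptr F J ω) i - 16 / 2 ^ q *
            (rsh (2 * 5) j (2 ^ q / 16 * α (ptr F J ω) i) : ℝ) =
            16 / 2 ^ q * -((rsh (2 * 5) j (2 ^ q / 16 * α (ptr F J ω) i) : ℝ) -
              2 ^ q / 16 * α (ptr F J ω) i) := by
          field_simp
          ring
        show |α (ptr F J ω) i - 16 / 2 ^ q *
            (rsh (2 * 5) j (2 ^ q / 16 * α (ptr F J ω) i) : ℝ)| ≤ _
        rw [h2, abs_mul, abs_neg, abs_of_pos (by positivity : (0 : ℝ) < 16 / 2 ^ q)]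
        calc (16 : ℝ) / 2 ^ q * |(rsh (2 * 5) j (2 ^ q / 16 * α (ptr F J ω) i) : ℝ) -
              2 ^ q / 16 * α (ptr F J ω) i| ≤ 16 / 2 ^ q * 1 :=
              mul_le_mul_of_nonneg_left h1 (by positivity)
          _ = _ := mul_one _
      have h3 := af4_le (fun i => hd i) ht0 ht1 (hn 0 (by norm_num)) (hn 1 (by norm_num))
        (hn 2 (by norm_num))
      rw [← af4_sub] at h3
      obtain ⟨x, hx⟩ : ∃ x, x = (1 : ℝ) / 2 ^ q := ⟨_, rfl⟩
      have hx0 : 0 < x := by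
        rw [hx]
        positivity
      have h4 : (16 : ℝ) / 2 ^ q = 16 * x := by
        rw [hx]
        ring
      rw [← hx] at ho
      rw [h4] at h3
      have h5 : |nec F c (Q (z₀ (ptr F J ω))) g ω 3 - af4 κ (2 ^ w * F.t ω - F.T1 w ω)
          (nec F c (Q (z₀ (ptr F J ω))) g ω 0) (nec F c (Q (z₀ (ptr F J ω))) g ω 1)
          (nec F c (Q (z₀ (ptr F J ω))) g ω 2)| ≤ 256 * x := by
        rw [abs_le] at ho h3 ⊢
        constructor <;> linarith [ho.1, ho.2, h3.1, h3.2]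
      have h6 : (1 : ℝ) / 2 ^ (g 3 + q - 8) = 1 / 2 ^ g 3 * (256 * x) := by
        rw [hx, show (2 : ℝ) ^ (g 3 + q - 8) = 2 ^ g 3 * 2 ^ q / 256 by
          rw [eq_div_iff (by norm_num), show (256 : ℝ) = 2 ^ 8 by norm_num, ← pow_add, ← pow_add]
          congr 1
          omega]
        field_simp
      rw [h6]
      exact mul_le_mul_of_nonneg_left h5 (by positivity)

end Pool.PM26
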