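import Pool.Agent.H26.PLN.Iid

/-!
# Random rounding

`shf_one`: two close numbers have different roundings for at most one of the shifts. `rnd_ev`: two
close vectors have the same rounding on half of an event, for one of the shifts.
-/

set_option autoImplicit false

namespace Pool.PM26

open Finset Real
open Pool.Agent.H49.Ent Pool.Agent.H32.Dense Pool.STK Pool.KA Pool.KSAT Pool.K2S Pool.PB Pool.S6C

/-- The rounding with the shift `j / s`. -/
noncomputable def rsh (s j : ℕ) (x : ℝ) : ℤ := ⌊x + j / s⌋

/-- The rounding is near. -/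
theorem rsh_near {s j : ℕ} (hj : j < s) (x : ℝ) : |(rsh s j x : ℝ) - x| ≤ 1 := by
  have hs : (0 : ℝ) < s := by exact_mod_cast (Nat.zero_le j).trans_lt hj
  have h1 := Int.floor_le (x + (j : ℝ) / s)
  have h2 := Int.lt_floor_add_one (x + (j : ℝ) / s)
  have h3 : (0 : ℝ) ≤ (j : ℝ) / s := by positivity
  have h4 : (j : ℝ) / s ≤ 1 := by
    rw [div_le_one hs]
    exact_mod_cast hj.le
  unfold rsh
  rw [abs_le]
  constructor <;> linarith

/-- At most one shift separates two close numbers. -/
theorem shf_one {s : ℕ} {x y : ℝ} (hxy : |x - y| ≤ 1 / s) {j j' : ℕ} (hj : j < s) (hj' : j' < s)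
    (h : rsh s j x ≠ rsh s j y) (h' : rsh s j' x ≠ rsh s j' y) : j = j' := by
  have hs : (0 : ℝ) < s := by exact_mod_cast (Nat.zero_le j).trans_lt hj
  -- it suffices to treat `x ≤ y` and `j ≤ j'`
  have key : ∀ (x y : ℝ), x ≤ y → y - x ≤ 1 / s → ∀ j j' : ℕ, j < s → j' < s → j ≤ j' →
      rsh s j x ≠ rsh s j y → rsh s j' x ≠ rsh s j' y → j = j' := by
    intro x y hle hd j j' hj hj' hjj h h'
    have aux : ∀ i : ℕ, rsh s i x ≠ rsh s i y → ∃ k : ℤ, k = rsh s i y ∧
        s * ((k : ℝ) - y) ≤ i ∧ (i : ℝ) < s * (k - x) := by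
      intro i hi
      refine ⟨rsh s i y, rfl, ?_, ?_⟩
      · have h1 := Int.floor_le (y + (i : ℝ) / s)
        have h2 : ((rsh s i y : ℤ) : ℝ) - y ≤ (i : ℝ) / s := by
          unfold rsh
          linarith
        rw [le_div_iff₀ hs] at h2
        linarith
      · have h1 : rsh s i x < rsh s i y := by
          refine lt_of_le_of_ne ?_ hi
          exact Int.floor_le_floor (by linarith)
        have h2 : x + (i : ℝ) / s < rsh s i y :=
          Int.floor_lt.1 (show ⌊x + (i : ℝ) / s⌋ < rsh s i y from h1)
        have h3 : (i : ℝ) / s < rsh s i y - x := by linarith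
        rw [div_lt_iff₀ hs] at h3
        linarith
    obtain ⟨k, hk, k1, k2⟩ := aux j h
    obtain ⟨k', hk', k1', k2'⟩ := aux j' h'
    have hkk : k ≤ k' := by
      rw [hk, hk']
      refine Int.floor_le_floor ?_
      have : (j : ℝ) / s ≤ (j' : ℝ) / s := by
        have : (j : ℝ) ≤ j' := by exact_mod_cast hjj
        gcongr
      linarith
    have hd' : (s : ℝ) * (y - x) ≤ 1 := by
      rw [le_div_iff₀ hs] at hd
      linarith
    rcases hkk.lt_or_eq with hlt | heq
    · exfalso
      have h1 : (k : ℝ) + 1 ≤ k' := by exact_mod_cast hlt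
      have h2 : (s : ℝ) * (k + 1 - y) ≤ s * (k' - y) := by
        refine mul_le_mul_of_nonneg_left ?_ hs.le
        linarith
      have h3 : (j : ℝ) - 1 + s < j' := by nlinarith
      have h4 : j + s < j' + 1 := by
        have : ((j + s : ℕ) : ℝ) < ((j' + 1 : ℕ) : ℝ) := by
          push_cast
          linarith
        exact_mod_cast this
      omega
    · have h1 : (j' : ℝ) - j < 1 := by
        rw [← heq] at k2'
        nlinarith
      have h2 : j' < j + 1 := by
        have : ((j' : ℕ) : ℝ) < ((j + 1 : ℕ) : ℝ) := by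
          push_cast
          linarith
        exact_mod_cast this
      omega
  have key2 : ∀ (x y : ℝ), x ≤ y → y - x ≤ 1 / s → rsh s j x ≠ rsh s j y →
      rsh s j' x ≠ rsh s j' y → j = j' := by
    intro x y hle hd h h'
    rcases le_total j j' with hjj | hjj
    · exact key x y hle hd j j' hj hj' hjj h h'
    · exact (key x y hle hd j' j hj' hj hjj h' h).symm
  rcases le_total x y with hle | hle
  · exact key2 x y hle (by rw [abs_le] at hxy; linarith [hxy.1]) h h'
  · exact key2 y x hle (by rw [abs_le] at hxy; linarith [hxy.2]) h.symm h'.symm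

/-- **Random rounding**: two vectors which are close on `B` have the same rounding on half of `B`,
for one of the shifts. -/
theorem rnd_ev {Ω : Type} [Fintype Ω] {p : Ω → ℝ} (hp : ∀ ω, 0 ≤ p ω) {n : ℕ} (hn : 0 < n)
    (B : Ω → Prop) (x y : Ω → Fin n → ℝ)
    (h : ∀ ω, B ω → ∀ i, |x ω i - y ω i| ≤ 1 / (2 * n : ℕ)) :
    ∃ j < 2 * n, Pe p B ≤ 2 * Pe p (fun ω => B ω ∧ ∀ i, rsh (2 * n) j (x ω i) =
      rsh (2 * n) j (y ω i)) := by
  classical
  have h1 : n * Pe p B ≤ ∑ j ∈ range (2 * n), Pe p (fun ω => B ω ∧ ∀ i,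
      rsh (2 * n) j (x ω i) = rsh (2 * n) j (y ω i)) := by
    simp only [Pool.JVE.pe_sum]
    rw [Finset.sum_comm, Finset.mul_sum]
    refine Finset.sum_le_sum fun ω _ => ?_
    by_cases hB : B ω
    · rw [if_pos hB]
      refine le_trans (b := (((range (2 * n)).filter fun j => ∀ i, rsh (2 * n) j (x ω i) =
            rsh (2 * n) j (y ω i)).card : ℝ) * p ω) ?_ (le_of_eq ?_)
      swap
      · rw [Finset.card_filter]
        push_cast
        rw [Finset.sum_mul]
        refine Finset.sum_congr rfl fun j _ => ?_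
        by_cases hj : ∀ i, rsh (2 * n) j (x ω i) = rsh (2 * n) j (y ω i)
        · rw [if_pos hj, if_pos ⟨hB, hj⟩, one_mul]
        · rw [if_neg hj, if_neg (fun h => hj h.2), zero_mul]
      refine mul_le_mul_of_nonneg_right ?_ (hp ω)
      -- the bad shifts
      have h2 : ((range (2 * n)).filter fun j => ¬ ∀ i, rsh (2 * n) j (x ω i) =
          rsh (2 * n) j (y ω i)).card ≤ n := by
        have h3 : ∀ j ∈ (range (2 * n)).filter (fun j => ¬ ∀ i, rsh (2 * n) j (x ω i) =
          rsh (2 * n) j (y ω i)), ∃ i : Fin n, rsh (2 * n) j (x ω i) ≠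
            rsh (2 * n) j (y ω i) := by
          intro j hj
          have := (Finset.mem_filter.1 hj).2
          push Not at this
          exact this
        have h4 : ((range (2 * n)).filter fun j => ¬ ∀ i, rsh (2 * n) j (x ω i) =
          rsh (2 * n) j (y ω i)).card ≤ (univ : Finset (Fin n)).card := by
          refine Finset.card_le_card_of_injOn (fun j => if hj : ∃ i : Fin n,
            rsh (2 * n) j (x ω i) ≠ rsh (2 * n) j (y ω i) then hj.choose else ⟨0, hn⟩)
            (fun j _ => Finset.mem_coe.2 (mem_univ _)) ?_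
          intro j hj j' hj' he
          have g1 := h3 j hj
          have g2 := h3 j' hj'
          dsimp only at he
          rw [dif_pos g1, dif_pos g2] at he
          have q1 := g1.choose_spec
          have q2 := g2.choose_spec
          rw [← he] at q2
          exact shf_one (h ω hB _) (mem_range.1 (Finset.mem_filter.1 hj).1)
            (mem_range.1 (Finset.mem_filter.1 hj').1) q1 q2
        simpa using h4
      have h5 := Finset.card_filter_add_card_filter_not (s := range (2 * n))
        (fun j => ∀ i, rsh (2 * n) j (x ω i) = rsh (2 * n) j (y ω i))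
      rw [Finset.card_range] at h5
      have h6 : n ≤ ((range (2 * n)).filter fun j => ∀ i, rsh (2 * n) j (x ω i) =
          rsh (2 * n) j (y ω i)).card := by omega
      exact_mod_cast h6
    · rw [if_neg hB, mul_zero]
      refine Finset.sum_nonneg fun j _ => ?_
      split_ifs
      exacts [hp ω, le_rfl]
  by_contra hcon
  push Not at hcon
  have h2 : ∑ j ∈ range (2 * n), Pe p (fun ω => B ω ∧ ∀ i,
      rsh (2 * n) j (x ω i) = rsh (2 * n) j (y ω i)) < ∑ _j ∈ range (2 * n), Pe p B / 2 := by
    refine Finset.sum_lt_sum_of_nonempty ⟨0, mem_range.2 (by omega)⟩ fun j hj => ?_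
    have := hcon j (mem_range.1 hj)
    linarith
  rw [Finset.sum_const, Finset.card_range, nsmul_eq_mul] at h2
  push_cast at h2
  linarith

end Pool.PM26
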