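import Pool.Agent.H62.OWN.Jvc

/-!
# Selection for six samples

The coupling `PC p g pt`: a sample `o`, two samples `a`, `b` independent given the value of `g` at
`o` (the line), a copy `o'` of `o` given `pt o` (the point), two samples `a'`, `b'` independent
given the value of `g` at `o'`. A relation of the six samples has at most the probability of the
same relation with `a`, `b` functions of `g o` and `o'`, `a'`, `b'` functions of `pt o`
(`six_sel`). `two_sel`: the same for two copies given the point.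
-/

set_option autoImplicit false

namespace Pool.PM26

open Finset Real
open Pool.Agent.H49.Ent Pool.Agent.H32.Dense Pool.STK Pool.KA Pool.KSAT Pool.K2S Pool.PB Pool.S6C
open Pool.KM7 (P2 P2_isLaw P2_fst)

variable {Ω GT PT : Type} [Fintype Ω]

/-! ### Mixtures -/

open Classical in
/-- **A mixture is at most the best element**: the weights depend on `g ω` only. -/
theorem sel_mix {Λ : Type} [Fintype Λ] [Nonempty Λ] {p : Ω → ℝ} (hp : ∀ ω, 0 ≤ p ω) (g : Ω → GT)
    (k : GT → Λ → ℝ) (hk : ∀ s l, 0 ≤ k s l) (hk1 : ∀ s, ∑ l, k s l ≤ 1) (f : Ω → Λ → ℝ)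
    (hf : ∀ ω l, 0 ≤ f ω l) : ∃ sel : GT → Λ,
      ∑ ω, p ω * ∑ l, k (g ω) l * f ω l ≤ ∑ ω, p ω * f ω (sel (g ω)) := by
  obtain ⟨V, hV⟩ : ∃ V : GT → Λ → ℝ, V = fun s l =>
      ∑ ω ∈ univ.filter (fun ω => g ω = s), p ω * f ω l := ⟨_, rfl⟩
  have hex : ∀ s, ∃ l : Λ, ∀ l' : Λ, V s l' ≤ V s l := by
    intro s
    obtain ⟨x, -, hx⟩ := Finset.exists_max_image (Finset.univ : Finset Λ) (V s)
      Finset.univ_nonempty
    exact ⟨x, fun y => hx y (Finset.mem_univ y)⟩
  choose sel hsel using hex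
  refine ⟨sel, ?_⟩
  have hV0 : ∀ s l, 0 ≤ V s l := by
    intro s l
    rw [hV]
    exact Finset.sum_nonneg fun ω _ => mul_nonneg (hp ω) (hf ω l)
  have e1 : ∀ h : Ω → ℝ, ∑ ω, h ω =
      ∑ s ∈ univ.image g, ∑ ω ∈ univ.filter (fun ω => g ω = s), h ω := by
    intro h
    exact (Finset.sum_fiberwise_of_maps_to (fun ω _ => Finset.mem_image_of_mem g
      (Finset.mem_univ ω)) h).symm
  rw [e1 (fun ω => p ω * ∑ l, k (g ω) l * f ω l), e1 (fun ω => p ω * f ω (sel (g ω)))]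
  refine Finset.sum_le_sum fun s _ => ?_
  have e2 : ∑ ω ∈ univ.filter (fun ω => g ω = s), p ω * ∑ l, k (g ω) l * f ω l =
      ∑ l, k s l * V s l := by
    rw [hV]
    simp only [Finset.mul_sum]
    rw [Finset.sum_comm]
    refine Finset.sum_congr rfl fun l _ => Finset.sum_congr rfl fun ω hω => ?_
    rw [(Finset.mem_filter.1 hω).2]
    ring
  have e3 : ∑ ω ∈ univ.filter (fun ω => g ω = s), p ω * f ω (sel (g ω)) = V s (sel s) := by
    rw [hV]
    refine Finset.sum_congr rfl fun ω hω => ?_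
    rw [(Finset.mem_filter.1 hω).2]
  rw [e2, e3]
  calc ∑ l, k s l * V s l ≤ ∑ l, k s l * V s (sel s) :=
        Finset.sum_le_sum fun l _ => mul_le_mul_of_nonneg_left (hsel s l) (hk s l)
    _ = (∑ l, k s l) * V s (sel s) := by rw [Finset.sum_mul]
    _ ≤ 1 * V s (sel s) := mul_le_mul_of_nonneg_right (hk1 s) (hV0 s _)
    _ = V s (sel s) := one_mul _

/-! ### Kernels -/

open Classical in
/-- The law of a sample given the value of `g`. -/
noncomputable def ker (p : Ω → ℝ) (g : Ω → GT) (s : GT) (a : Ω) : ℝ :=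
  if g a = s then p a / law p g s else 0

theorem ker_nonneg {p : Ω → ℝ} (hp : ∀ ω, 0 ≤ p ω) (g : Ω → GT) (s : GT) (a : Ω) :
    0 ≤ ker p g s a := by
  unfold ker
  split_ifs
  · exact div_nonneg (hp a) (law_nonneg hp g s)
  · exact le_rfl

theorem ker_sum {p : Ω → ℝ} (_hp : ∀ ω, 0 ≤ p ω) (g : Ω → GT) (s : GT) :
    ∑ a, ker p g s a ≤ 1 := by
  have h1 : ∑ a, ker p g s a = law p g s / law p g s := by
    unfold ker law
    rw [Finset.sum_div]
    refine Finset.sum_congr rfl fun a _ => ?_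
    split_ifs <;> simp
  rw [h1]
  exact div_self_le_one _

theorem ker_sum_one {p : Ω → ℝ} (g : Ω → GT) {s : GT} (hs : law p g s ≠ 0) :
    ∑ a, ker p g s a = 1 := by
  have h1 : ∑ a, ker p g s a = law p g s / law p g s := by
    unfold ker law
    rw [Finset.sum_div]
    refine Finset.sum_congr rfl fun a _ => ?_
    split_ifs <;> simp
  rw [h1, div_self hs]

theorem P2_ker {p : Ω → ℝ} (g : Ω → GT) (o a : Ω) :
    P2 p g (o, a) = p o * ker p g (g o) a := by
  classical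
  show (if g o = g a then p o * p a / law p g (g o) else 0) = _
  unfold ker
  by_cases h : g o = g a
  · rw [if_pos h, if_pos h.symm]
    ring
  · rw [if_neg h, if_neg (fun h' => h h'.symm), mul_zero]

/-- The law of two samples of the line of the first. -/
noncomputable def kk (p : Ω → ℝ) (g : Ω → GT) (s : GT) (x : Ω × Ω) : ℝ :=
  ker p g s x.1 * ker p g s x.2

theorem kk_nonneg {p : Ω → ℝ} (hp : ∀ ω, 0 ≤ p ω) (g : Ω → GT) (s : GT) (x : Ω × Ω) :
    0 ≤ kk p g s x := mul_nonneg (ker_nonneg hp g s _) (ker_nonneg hp g s _)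

theorem kk_sum {p : Ω → ℝ} (hp : ∀ ω, 0 ≤ p ω) (g : Ω → GT) (s : GT) :
    ∑ x, kk p g s x ≤ 1 := by
  have h1 : ∑ x, kk p g s x = (∑ a, ker p g s a) * ∑ a, ker p g s a := by
    rw [Fintype.sum_prod_type, Finset.sum_mul_sum]
    rfl
  rw [h1]
  have h2 := ker_sum hp g s
  have h3 : 0 ≤ ∑ a, ker p g s a := Finset.sum_nonneg fun a _ => ker_nonneg hp g s a
  nlinarith

theorem kk_sum_one {p : Ω → ℝ} (g : Ω → GT) {s : GT} (hs : law p g s ≠ 0) :
    ∑ x, kk p g s x = 1 := by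
  have h1 : ∑ x, kk p g s x = (∑ a, ker p g s a) * ∑ a, ker p g s a := by
    rw [Fintype.sum_prod_type, Finset.sum_mul_sum]
    rfl
  rw [h1, ker_sum_one g hs, one_mul]

/-- The law of the sample and of two samples of its line. -/
noncomputable def P3 (p : Ω → ℝ) (g : Ω → GT) : (Ω × Ω) × (Ω × Ω) → ℝ := P2 (P2 p g) Prod.fst

theorem P3_val {p : Ω → ℝ} (hp : IsLaw p) (g : Ω → GT) (o a o₁ b : Ω) :
    P3 p g ((o, a), (o₁, b)) = open Classical in
      if o = o₁ then p o * (ker p g (g o) a * ker p g (g o) b) else 0 := by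
  classical
  show (if o = o₁ then P2 p g (o, a) * P2 p g (o₁, b) / law (P2 p g) Prod.fst o else 0) = _
  by_cases h : o = o₁
  · subst h
    rw [if_pos rfl, if_pos rfl, P2_ker, P2_ker]
    have h1 : law (P2 p g) Prod.fst o = p o := P2_fst hp g o
    rw [h1]
    rcases (hp.nonneg o).eq_or_lt with h2 | h2
    · rw [← h2]
      simp
    · field_simp
  · rw [if_neg h, if_neg h]

/-- Sums over the sample and two samples of its line. -/
theorem P3_sum {p : Ω → ℝ} (hp : IsLaw p) (g : Ω → GT) (f : Ω → Ω × Ω → ℝ) :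
    ∑ x : (Ω × Ω) × (Ω × Ω), P3 p g x * f x.1.1 (x.1.2, x.2.2) =
      ∑ o, p o * ∑ y, kk p g (g o) y * f o y := by
  classical
  rw [Fintype.sum_prod_type, Fintype.sum_prod_type]
  refine Finset.sum_congr rfl fun o _ => ?_
  rw [Fintype.sum_prod_type, Finset.mul_sum]
  refine Finset.sum_congr rfl fun a _ => ?_
  rw [Fintype.sum_prod_type, Finset.mul_sum, Finset.sum_eq_single o]
  · refine Finset.sum_congr rfl fun b _ => ?_
    rw [P3_val hp, if_pos rfl]
    unfold kk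
    ring
  · intro o₁ _ h
    refine Finset.sum_eq_zero fun b _ => ?_
    rw [P3_val hp, if_neg (fun h' => h h'.symm), zero_mul]
  · intro h
    exact absurd (Finset.mem_univ o) h

theorem P3_law {p : Ω → ℝ} (hp : IsLaw p) (g : Ω → GT) (pt : Ω → PT) (s : PT) :
    law (P3 p g) (fun x => pt x.1.1) s = law p pt s := by
  classical
  have h1 : law (P3 p g) (fun x => pt x.1.1) s =
      ∑ x : (Ω × Ω) × (Ω × Ω), P3 p g x * (if pt x.1.1 = s then 1 else 0) := by
    unfold law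
    refine Finset.sum_congr rfl fun x _ => ?_
    split_ifs <;> simp
  rw [h1, P3_sum hp g (fun o _ => if pt o = s then 1 else 0)]
  unfold law
  refine Finset.sum_congr rfl fun o _ => ?_
  rw [← Finset.sum_mul]
  rcases (hp.nonneg o).eq_or_lt with h2 | h2
  · rw [← h2, zero_mul, ite_self]
  · rw [kk_sum_one g (ne_of_gt (lt_of_lt_of_le h2 (le_law hp.nonneg g o)))]
    split_ifs <;> simp

/-- The weights of the copy and of its two samples. -/
noncomputable def k3 (p : Ω → ℝ) (g : Ω → GT) (pt : Ω → PT) (s : PT) (x : Ω × Ω × Ω) : ℝ :=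
  ker p pt s x.1 * kk p g (g x.1) x.2

theorem k3_nonneg {p : Ω → ℝ} (hp : ∀ ω, 0 ≤ p ω) (g : Ω → GT) (pt : Ω → PT) (s : PT)
    (x : Ω × Ω × Ω) : 0 ≤ k3 p g pt s x := mul_nonneg (ker_nonneg hp _ _ _) (kk_nonneg hp _ _ _)

theorem k3_sum {p : Ω → ℝ} (hp : ∀ ω, 0 ≤ p ω) (g : Ω → GT) (pt : Ω → PT) (s : PT) :
    ∑ x, k3 p g pt s x ≤ 1 := by
  have h1 : ∑ x, k3 p g pt s x = ∑ o, ker p pt s o * ∑ y, kk p g (g o) y := by
    rw [Fintype.sum_prod_type]
    refine Finset.sum_congr rfl fun o _ => ?_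
    rw [Finset.mul_sum]
    rfl
  rw [h1]
  refine le_trans (Finset.sum_le_sum fun o _ => ?_) (ker_sum hp pt s)
  calc ker p pt s o * ∑ y, kk p g (g o) y ≤ ker p pt s o * 1 :=
        mul_le_mul_of_nonneg_left (kk_sum hp g _) (ker_nonneg hp pt s o)
    _ = _ := mul_one _

/-- **The coupling of six samples.** -/
noncomputable def PC (p : Ω → ℝ) (g : Ω → GT) (pt : Ω → PT) :
    ((Ω × Ω) × (Ω × Ω)) × ((Ω × Ω) × (Ω × Ω)) → ℝ :=
  P2 (P2 (P2 p g) Prod.fst) (fun x => pt x.1.1)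

theorem PC_sum {p : Ω → ℝ} (hp : IsLaw p) (g : Ω → GT) (pt : Ω → PT)
    (f : Ω → Ω × Ω → Ω × Ω × Ω → ℝ) :
    ∑ e, PC p g pt e * f e.1.1.1 (e.1.1.2, e.1.2.2) (e.2.1.1, e.2.1.2, e.2.2.2) =
      ∑ o, p o * ∑ z, k3 p g pt (pt o) z * ∑ y, kk p g (g o) y * f o y z := by
  classical
  have h1 : ∀ x x' : (Ω × Ω) × (Ω × Ω), PC p g pt (x, x') =
      P3 p g x * (if pt x'.1.1 = pt x.1.1 then P3 p g x' / law p pt (pt x.1.1) else 0) := by
    intro x x'
    have h2 : PC p g pt (x, x') = P3 p g x * ker (P3 p g) (fun x => pt x.1.1) (pt x.1.1) x' :=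
      P2_ker (p := P3 p g) (fun x => pt x.1.1) x x'
    rw [h2]
    unfold ker
    rw [P3_law hp g pt]
  rw [Fintype.sum_prod_type]
  have h3 : ∀ x : (Ω × Ω) × (Ω × Ω), ∑ x' : (Ω × Ω) × (Ω × Ω), PC p g pt (x, x') *
      f x.1.1 (x.1.2, x.2.2) (x'.1.1, x'.1.2, x'.2.2) =
      P3 p g x * ∑ z, k3 p g pt (pt x.1.1) z * f x.1.1 (x.1.2, x.2.2) z := by
    intro x
    have h4 : ∑ x' : (Ω × Ω) × (Ω × Ω), PC p g pt (x, x') *
        f x.1.1 (x.1.2, x.2.2) (x'.1.1, x'.1.2, x'.2.2) =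
        P3 p g x * ∑ x' : (Ω × Ω) × (Ω × Ω), P3 p g x' *
          ((fun (o : Ω) (y : Ω × Ω) => (if pt o = pt x.1.1 then 1 / law p pt (pt x.1.1) else 0) *
            f x.1.1 (x.1.2, x.2.2) (o, y.1, y.2)) x'.1.1 (x'.1.2, x'.2.2)) := by
      rw [Finset.mul_sum]
      refine Finset.sum_congr rfl fun x' _ => ?_
      rw [h1]
      dsimp only
      split_ifs
      · ring
      · ring
    have h5 := P3_sum hp g (fun (o : Ω) (y : Ω × Ω) =>
      (if pt o = pt x.1.1 then 1 / law p pt (pt x.1.1) else 0) *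
        f x.1.1 (x.1.2, x.2.2) (o, y.1, y.2))
    rw [h4, h5]
    congr 1
    rw [Fintype.sum_prod_type]
    refine Finset.sum_congr rfl fun o _ => ?_
    rw [Finset.mul_sum]
    refine Finset.sum_congr rfl fun y _ => ?_
    unfold k3 ker
    dsimp only
    split_ifs
    · ring
    · ring
  rw [Finset.sum_congr rfl fun x _ => h3 x]
  rw [P3_sum hp g (fun o y => ∑ z, k3 p g pt (pt o) z * f o y z)]
  refine Finset.sum_congr rfl fun o _ => ?_
  congr 1
  simp only [Finset.mul_sum]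
  rw [Finset.sum_comm]
  refine Finset.sum_congr rfl fun z _ => Finset.sum_congr rfl fun y _ => ?_
  ring

/-- **Selection for six samples**: `a`, `b` are chosen on the line, the copy and its two samples
at the point. -/
theorem six_sel {p : Ω → ℝ} (hp : IsLaw p) (g : Ω → GT) (pt : Ω → PT)
    (R : Ω → Ω × Ω → Ω × Ω × Ω → Prop) : ∃ (sL : GT → Ω × Ω) (sP : PT → Ω × Ω × Ω),
      Pe (PC p g pt) (fun e => R e.1.1.1 (e.1.1.2, e.1.2.2) (e.2.1.1, e.2.1.2, e.2.2.2)) ≤
        Pe p (fun o => R o (sL (g o)) (sP (pt o))) := by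
  classical
  have hne : Nonempty Ω := by
    by_contra hcon
    rw [not_nonempty_iff] at hcon
    have h2 := hp.sum_one
    rw [Finset.univ_eq_empty, Finset.sum_empty] at h2
    exact zero_ne_one h2
  obtain ⟨f, hf⟩ : ∃ f : Ω → Ω × Ω → Ω × Ω × Ω → ℝ, f = fun o y z => if R o y z then 1 else 0 :=
    ⟨_, rfl⟩
  have hf0 : ∀ o y z, 0 ≤ f o y z := by
    intro o y z
    rw [hf]
    dsimp only
    split_ifs <;> norm_num
  have e1 : Pe (PC p g pt) (fun e => R e.1.1.1 (e.1.1.2, e.1.2.2) (e.2.1.1, e.2.1.2, e.2.2.2)) =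
      ∑ e, PC p g pt e * f e.1.1.1 (e.1.1.2, e.1.2.2) (e.2.1.1, e.2.1.2, e.2.2.2) := by
    rw [Pool.JVE.pe_sum, hf]
    refine Finset.sum_congr rfl fun e _ => ?_
    dsimp only
    split_ifs <;> simp
  rw [e1, PC_sum hp]
  obtain ⟨sP, hP⟩ := sel_mix hp.nonneg pt (k3 p g pt) (k3_nonneg hp.nonneg g pt)
    (k3_sum hp.nonneg g pt) (fun o z => ∑ y, kk p g (g o) y * f o y z)
    (fun o z => Finset.sum_nonneg fun y _ => mul_nonneg (kk_nonneg hp.nonneg g _ y) (hf0 o y z))
  obtain ⟨sL, hL⟩ := sel_mix hp.nonneg g (kk p g) (kk_nonneg hp.nonneg g)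
    (kk_sum hp.nonneg g) (fun o y => f o y (sP (pt o))) (fun o y => hf0 o y _)
  refine ⟨sL, sP, (hP.trans hL).trans (le_of_eq ?_)⟩
  rw [Pool.JVE.pe_sum, hf]
  refine Finset.sum_congr rfl fun o _ => ?_
  dsimp only
  split_ifs <;> simp

/-- **Selection for two copies given the point**, a sample of each line. -/
theorem two_sel {p : Ω → ℝ} (hp : IsLaw p) (pt : Ω → PT) (R : Ω → Ω → Prop) :
    ∃ sP : PT → Ω, Pe (P2 p pt) (fun x => R x.1 x.2) ≤ Pe p (fun o => R o (sP (pt o))) := by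
  have hne : Nonempty Ω := by
    by_contra hcon
    rw [not_nonempty_iff] at hcon
    have h2 := hp.sum_one
    rw [Finset.univ_eq_empty, Finset.sum_empty] at h2
    exact zero_ne_one h2
  exact Pool.JVE.pair_sel hp.nonneg pt R

end Pool.PM26
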